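import Pool.Agent.helper26.EC.SpecS

/-!
# Project EC: row GDB
-/

set_option autoImplicit false

namespace Pool.Agent.EC

open Finset ArithmeticFunction
open Pool.Agent.CHS (PB WLo WUp WTail)
open Pool.Agent.RLS (SS Dat Good VV)

private theorem GDB_VV (P : Finset ℕ) : VV gg P = CHS.V P := rfl

private theorem GDB_upper (h1 : CHS.PA_stmt) {C : ℝ} (hC : 0 < C)
    (h3 : ∀ s t : ℝ, 2 ≤ s → s ≤ t → Real.log (t / s) - C / s ≤ CHS.sig s t) (h t : ℝ)
    (hh : 2 ≤ h) (ht : h ≤ t) : CHS.V (PB h t) - h / t ≤ 2 * C / h := by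
  have hpos : 0 < h := by linarith
  have htpos : 0 < t := by linarith
  obtain ⟨hV0, hV1, -, hp⟩ := h1.2.2.1 h t hh
  have hq : 0 ≤ h / t := by positivity
  have hq1 : h / t ≤ 1 := by rw [div_le_one htpos]; exact ht
  have hVexp : CHS.V (PB h t) ≤ Real.exp (-CHS.sig h t) := by
    unfold CHS.V CHS.sig
    rw [← Finset.sum_neg_distrib, Real.exp_sum]
    apply Finset.prod_le_prod
    · intro p hp'
      have := (hp p hp').2.2
      linarith
    · intro p hp'
      have := Real.add_one_le_exp (-(1 / ((p : ℝ) - 1)))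
      linarith
  have hVle : CHS.V (PB h t) ≤ h / t * Real.exp (C / h) := by
    refine hVexp.trans ?_
    have h5 := h3 h t hh ht
    have h6 : h / t = Real.exp (-Real.log (t / h)) := by
      rw [Real.exp_neg, Real.exp_log (by positivity), inv_div]
    rw [h6, ← Real.exp_add]
    apply Real.exp_le_exp.2
    linarith
  have h10 : 2 * C / h = 2 * (C / h) := by ring
  rw [h10]
  by_cases hCh : C / h ≤ 1
  · have h0 : 0 ≤ C / h := by positivity
    have h7 : Real.exp (C / h) ≤ 1 + 2 * (C / h) := by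
      have h11 := Real.norm_exp_sub_one_sub_id_le (x := C / h)
        (by rw [Real.norm_eq_abs, abs_of_nonneg h0]; exact hCh)
      rw [Real.norm_eq_abs, Real.norm_eq_abs, abs_of_nonneg h0] at h11
      have h12 := (abs_le.1 h11).2
      nlinarith
    have h8 : CHS.V (PB h t) ≤ h / t * (1 + 2 * (C / h)) :=
      hVle.trans (mul_le_mul_of_nonneg_left h7 hq)
    have h9 : h / t * (2 * (C / h)) ≤ 1 * (2 * (C / h)) :=
      mul_le_mul_of_nonneg_right hq1 (by positivity)
    nlinarith
  · push Not at hCh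
    linarith

private theorem GDB_lower (h1 : CHS.PA_stmt) (h2 : CHS.SG_stmt) (h t : ℝ)
    (hh : 2 ≤ h) (ht : h ≤ t) : h / t - CHS.V (PB h t) ≤ 13 / h := by
  have hpos : 0 < h := by linarith
  have htpos : 0 < t := by linarith
  obtain ⟨hV0, hV1, hs0, hp⟩ := h1.2.2.1 h t hh
  have hq : 0 < h / t := by positivity
  have hq1 : h / t ≤ 1 := by rw [div_le_one htpos]; exact ht
  by_cases h13 : 13 ≤ h
  · have hsg := h2 h t h13 ht
    -- lower bound of the product
    have hVexp : Real.exp (-((1 + 1 / h) * CHS.sig h t)) ≤ CHS.V (PB h t) := by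
      unfold CHS.V CHS.sig
      rw [Finset.mul_sum, ← Finset.sum_neg_distrib, Real.exp_sum]
      apply Finset.prod_le_prod
      · intro p _
        exact (Real.exp_pos _).le
      · intro p hp'
        obtain ⟨hp8, hy0, hy7⟩ := hp p hp'
        have hpr : (8 : ℝ) ≤ (p : ℝ) := by exact_mod_cast hp8
        have hple : h + 2 ≤ (p : ℝ) := by
          have h20 := ((h1.1 h t p).1 hp').2.1
          have h21 : Real.exp h ≤ (p : ℝ) := by
            rw [← Real.exp_log (show (0 : ℝ) < (p : ℝ) by linarith)]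
            exact Real.exp_le_exp.2 h20
          have h22 : 1 + h + h ^ 2 / 2 ≤ Real.exp h := by
            have := Real.quadratic_le_exp_of_nonneg hpos.le
            linarith
          nlinarith
        have hx : 0 < 1 - 1 / ((p : ℝ) - 1) := by linarith
        have h23 := Real.one_sub_inv_le_log_of_pos hx
        rw [← Real.le_log_iff_exp_le hx]
        refine le_trans ?_ h23
        have h24 : (1 - 1 / ((p : ℝ) - 1))⁻¹ = ((p : ℝ) - 1) / ((p : ℝ) - 2) := by
          have ha : (p : ℝ) - 1 ≠ 0 := by intro h0; linarith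
          have hb : (p : ℝ) - 2 ≠ 0 := by intro h0; linarith
          have : 1 - 1 / ((p : ℝ) - 1) = ((p : ℝ) - 2) / ((p : ℝ) - 1) := by
            field_simp
            ring
          rw [this, inv_div]
        rw [h24]
        have ha : 0 < (p : ℝ) - 1 := by linarith
        have hb : 0 < (p : ℝ) - 2 := by linarith
        have h25 : 1 - ((p : ℝ) - 1) / ((p : ℝ) - 2) = - (1 / ((p : ℝ) - 1) * (1 + 1 / ((p : ℝ) - 2))) := by
          field_simp
          ring
        rw [h25]
        have h26 : 1 / ((p : ℝ) - 2) ≤ 1 / h := one_div_le_one_div_of_le hpos (by linarith)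
        have h27 : 1 / ((p : ℝ) - 1) * (1 + 1 / ((p : ℝ) - 2)) ≤ 1 / ((p : ℝ) - 1) * (1 + 1 / h) :=
          mul_le_mul_of_nonneg_left (by linarith) hy0.le
        linarith
    set x := Real.log (t / h) with hx
    have hx0 : 0 ≤ x := Real.log_nonneg (by rw [le_div_iff₀ hpos]; linarith)
    have h30 : (1 + 1 / h) * CHS.sig h t ≤ (1 + 1 / h) * (x + 2 / h) :=
      mul_le_mul_of_nonneg_left hsg (by positivity)
    have h31 : Real.exp (-((1 + 1 / h) * (x + 2 / h))) ≤ CHS.V (PB h t) :=
      le_trans (Real.exp_le_exp.2 (by linarith)) hVexp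
    have h32 : (1 + 1 / h) * (x + 2 / h) = x + (x / h + (1 + 1 / h) * (2 / h)) := by ring
    rw [h32, neg_add, Real.exp_add, hx, Real.exp_neg, Real.exp_log (by positivity), inv_div,
      ← hx] at h31
    have h33 := Real.add_one_le_exp (-(x / h + (1 + 1 / h) * (2 / h)))
    have h34 : h / t * (-(x / h + (1 + 1 / h) * (2 / h)) + 1) ≤ CHS.V (PB h t) :=
      (mul_le_mul_of_nonneg_left h33 hq.le).trans h31
    -- `(h / t) x ≤ 1`
    have h35 : h / t * x ≤ 1 := by
      have h36 : x ≤ t / h := by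
        have := Real.log_le_sub_one_of_pos (show 0 < t / h by positivity)
        rw [← hx] at this
        linarith
      calc h / t * x ≤ h / t * (t / h) := mul_le_mul_of_nonneg_left h36 hq.le
        _ = 1 := by field_simp
    have h37 : h / t * (x / h) ≤ 1 / h := by
      have : h / t * (x / h) = (h / t * x) * (1 / h) := by ring
      rw [this]
      have h38 : 0 ≤ 1 / h := by positivity
      calc h / t * x * (1 / h) ≤ 1 * (1 / h) := mul_le_mul_of_nonneg_right h35 h38
        _ = 1 / h := one_mul _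
    have h39 : (1 + 1 / h) * (2 / h) ≤ 4 / h := by
      have h40 : 1 / h ≤ 1 := by rw [div_le_one hpos]; linarith
      have h41 : (4 : ℝ) / h = 2 * (2 / h) := by ring
      rw [h41]
      exact mul_le_mul_of_nonneg_right (by linarith) (by positivity)
    have h42 : h / t * ((1 + 1 / h) * (2 / h)) ≤ 4 / h := by
      have h43 : 0 ≤ (1 + 1 / h) * (2 / h) := by positivity
      calc h / t * ((1 + 1 / h) * (2 / h)) ≤ 1 * ((1 + 1 / h) * (2 / h)) :=
            mul_le_mul_of_nonneg_right hq1 h43
        _ ≤ 4 / h := by rw [one_mul]; exact h39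
    have h44 : (13 : ℝ) / h = 1 / h + 4 / h + 8 / h := by ring
    have h45 : 0 ≤ 8 / h := by positivity
    have h46 : h / t * (-(x / h + (1 + 1 / h) * (2 / h)) + 1) =
        h / t - h / t * (x / h) - h / t * ((1 + 1 / h) * (2 / h)) := by ring
    rw [h46] at h34
    rw [h44]
    linarith
  · push Not at h13
    have h50 : 1 ≤ 13 / h := by rw [le_div_iff₀ hpos]; linarith
    linarith

theorem GDB (h1 : CHS.PA_stmt) (h2 : CHS.SG_stmt) (h3 : CHS.SL_stmt) : GDB_stmt := by
  obtain ⟨C, hC, h3⟩ := h3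
  refine ⟨2 * C + 13, by linarith, ?_⟩
  intro h Y hh hY
  have hpos : 0 < h := by linarith
  have key : ∀ t, h ≤ t → |CHS.V (PB h t) - h / t| ≤ (2 * C + 13) / h := by
    intro t ht
    have ha := GDB_upper h1 hC h3 h t hh ht
    have hb := GDB_lower h1 h2 h t hh ht
    have hc : (2 * C + 13) / h = 2 * C / h + 13 / h := by ring
    have hd : 0 ≤ 2 * C / h := by positivity
    have he : 0 ≤ 13 / h := by positivity
    rw [hc, abs_le]
    constructor <;> linarith
  obtain ⟨-, -, -, hp⟩ := h1.2.2.1 h Y hh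
  refine ⟨?_, ?_, ?_, ?_⟩
  · intro p hp'
    have := (h1.1 h Y p).1 hp'
    exact ⟨this.2.1, this.2.2.le⟩
  · intro p hp'
    obtain ⟨-, h5, h6⟩ := hp p hp'
    exact ⟨h5.le, lt_of_le_of_lt h6 (by norm_num)⟩
  · intro t ht1 ht2
    have h7 : (PB h Y).filter (fun p : ℕ => Real.log p < t) = PB h t := by
      ext p
      rw [Finset.mem_filter, h1.1 h Y p, h1.1 h t p]
      constructor
      · rintro ⟨⟨ha, hb, -⟩, hd⟩
        exact ⟨ha, hb, hd⟩
      · rintro ⟨ha, hb, hd⟩
        exact ⟨⟨ha, hb, lt_of_lt_of_le hd ht2⟩, hd⟩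
    rw [h7, GDB_VV]
    exact key t ht1
  · rw [GDB_VV]
    exact key Y hY

end Pool.Agent.EC
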