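import Pool.Agent.helper26.EC.SpecS

/-!
# Project EC: row MTN
-/

set_option autoImplicit false

namespace Pool.Agent.EC

open Finset ArithmeticFunction
open Pool.Agent.CHS (PB WLo WUp WTail)
open Pool.Agent.RLS (SS Dat Good)

/-- restriction of a sum over subsets to the support of the weights -/
private theorem MTN_restrict (c w : Finset ℕ → ℝ) (P Γ : Finset ℕ) (h : ∀ F, c F ≠ 0 → F ⊆ P) :
    ∑ F ∈ Γ.powerset, c F * w F = ∑ F ∈ (Γ ∩ P).powerset, c F * w F := by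
  symm
  apply Finset.sum_subset (Finset.powerset_mono.2 Finset.inter_subset_left)
  intro F hF hF'
  by_cases h0 : c F = 0
  · rw [h0, zero_mul]
  · exfalso
    apply hF'
    rw [Finset.mem_powerset] at hF ⊢
    exact Finset.subset_inter hF (h F h0)

private theorem MTN_restrict1 (c : Finset ℕ → ℝ) (P Γ : Finset ℕ) (h : ∀ F, c F ≠ 0 → F ⊆ P) :
    ∑ F ∈ Γ.powerset, c F = ∑ F ∈ (Γ ∩ P).powerset, c F := by
  have := MTN_restrict c (fun _ => 1) P Γ h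
  simpa using this

/-- the numerical part of the main inequality -/
private theorem MTN_num1 (V A δ S1 S2 S3 S4 T1 T2 : ℝ) (hV : 0 < V) (hA3 : 3 ≤ A) (hA4 : A ≤ 4)
    (hδ0 : 0 ≤ δ) (hδ1 : δ ≤ 1 / 10 ^ 6)
    (e1 : S1 ≥ 1 / 19960 * (A * (1495 / 1000) - 16 / 3 / 10 ^ 5)) (e2 : S2 ≤ 8 / 19960)
    (e3 : S3 ≤ 1 / 19960 * (A * (2098 / 1000) + 20 / 10 ^ 5))
    (e4 : S4 ≤ 1 / 19960 * (A + 2 / 10 ^ 5))
    (hlow : V * (S1 - 2 * δ * S2 - 1 / 2 * (1 + δ) * S3) ≤ T1)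
    (hmup2 : T2 ≤ V * (1 + δ) * S4) : V / 10 ^ 8 ≤ T1 - 445 / 1000 * T2 := by
  have g1 : 2 * δ * S2 ≤ 1 / 19960 * (16 / 10 ^ 6) := by
    have ha : 2 * δ * S2 ≤ 2 * δ * (8 / 19960) := mul_le_mul_of_nonneg_left e2 (by positivity)
    have hb : 2 * δ * (8 / 19960 : ℝ) ≤ 2 * (1 / 10 ^ 6) * (8 / 19960) :=
      mul_le_mul_of_nonneg_right (by linarith) (by norm_num)
    have hc : (2 * (1 / 10 ^ 6) * (8 / 19960) : ℝ) = 1 / 19960 * (16 / 10 ^ 6) := by norm_num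
    linarith
  have hW : A * (2098 / 1000) + 20 / 10 ^ 5 ≤ 9 := by
    have : A * (2098 / 1000) ≤ 4 * (2098 / 1000) := mul_le_mul_of_nonneg_right hA4 (by norm_num)
    linarith
  have hW0 : 0 ≤ A * (2098 / 1000) + 20 / 10 ^ 5 := by
    have : 0 ≤ A * (2098 / 1000) := mul_nonneg (by linarith) (by norm_num)
    positivity
  have g2 : 1 / 2 * (1 + δ) * S3 ≤ 1 / 19960 * (A * (1049 / 1000) + 10 / 10 ^ 5 + 5 / 10 ^ 6) := by
    have ha : 1 / 2 * (1 + δ) * S3 ≤ 1 / 2 * (1 + δ) * (1 / 19960 * (A * (2098 / 1000) + 20 / 10 ^ 5)) :=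
      mul_le_mul_of_nonneg_left e3 (by positivity)
    have hb : δ * (A * (2098 / 1000) + 20 / 10 ^ 5) ≤ 1 / 10 ^ 6 * 9 :=
      mul_le_mul hδ1 hW hW0 (by norm_num)
    have hc : 1 / 2 * (1 + δ) * (1 / 19960 * (A * (2098 / 1000) + 20 / 10 ^ 5)) =
        1 / 19960 * (1 / 2 * (A * (2098 / 1000) + 20 / 10 ^ 5) +
          1 / 2 * (δ * (A * (2098 / 1000) + 20 / 10 ^ 5))) := by ring
    rw [hc] at ha
    refine ha.trans ?_
    apply mul_le_mul_of_nonneg_left _ (by norm_num : (0 : ℝ) ≤ 1 / 19960)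
    linarith
  have g3 : (1 + δ) * S4 ≤ 1 / 19960 * (A + 2 / 10 ^ 5 + 5 / 10 ^ 6) := by
    have ha : (1 + δ) * S4 ≤ (1 + δ) * (1 / 19960 * (A + 2 / 10 ^ 5)) :=
      mul_le_mul_of_nonneg_left e4 (by positivity)
    have hb : δ * (A + 2 / 10 ^ 5) ≤ 1 / 10 ^ 6 * 5 :=
      mul_le_mul hδ1 (by linarith) (by positivity) (by norm_num)
    have hc : (1 + δ) * (1 / 19960 * (A + 2 / 10 ^ 5)) =
        1 / 19960 * ((A + 2 / 10 ^ 5) + δ * (A + 2 / 10 ^ 5)) := by ring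
    rw [hc] at ha
    refine ha.trans ?_
    apply mul_le_mul_of_nonneg_left _ (by norm_num : (0 : ℝ) ≤ 1 / 19960)
    linarith
  have g4 : 1 / 19960 * (A * (1495 / 1000) - 16 / 3 / 10 ^ 5) - 1 / 19960 * (16 / 10 ^ 6) -
      1 / 19960 * (A * (1049 / 1000) + 10 / 10 ^ 5 + 5 / 10 ^ 6) ≤
      S1 - 2 * δ * S2 - 1 / 2 * (1 + δ) * S3 := by linarith
  have g5 : V * (1 / 19960 * (A * (1495 / 1000) - 16 / 3 / 10 ^ 5) - 1 / 19960 * (16 / 10 ^ 6) -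
      1 / 19960 * (A * (1049 / 1000) + 10 / 10 ^ 5 + 5 / 10 ^ 6)) ≤ T1 :=
    (mul_le_mul_of_nonneg_left g4 hV.le).trans hlow
  have g6 : T2 ≤ V * (1 / 19960 * (A + 2 / 10 ^ 5 + 5 / 10 ^ 6)) := by
    refine hmup2.trans ?_
    rw [mul_assoc]
    exact mul_le_mul_of_nonneg_left g3 hV.le
  have g7 : V / 10 ^ 8 ≤ V * (1 / 19960 * (A * (1495 / 1000) - 16 / 3 / 10 ^ 5) -
      1 / 19960 * (16 / 10 ^ 6) - 1 / 19960 * (A * (1049 / 1000) + 10 / 10 ^ 5 + 5 / 10 ^ 6)) -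
      445 / 1000 * (V * (1 / 19960 * (A + 2 / 10 ^ 5 + 5 / 10 ^ 6))) := by
    have ha : V * (1 / 19960 * (A * (1495 / 1000) - 16 / 3 / 10 ^ 5) -
      1 / 19960 * (16 / 10 ^ 6) - 1 / 19960 * (A * (1049 / 1000) + 10 / 10 ^ 5 + 5 / 10 ^ 6)) -
      445 / 1000 * (V * (1 / 19960 * (A + 2 / 10 ^ 5 + 5 / 10 ^ 6))) =
      V * (1 / 19960 * (A * (1 / 1000) - 16 / 3 / 10 ^ 5 - 16 / 10 ^ 6 - 10 / 10 ^ 5 - 5 / 10 ^ 6 -
        445 / 1000 * (2 / 10 ^ 5 + 5 / 10 ^ 6))) := by ring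
    rw [ha, div_eq_mul_inv]
    apply mul_le_mul_of_nonneg_left _ hV.le
    have hb : (3 * (1 / 1000) - 16 / 3 / 10 ^ 5 - 16 / 10 ^ 6 - 10 / 10 ^ 5 - 5 / 10 ^ 6 -
        445 / 1000 * (2 / 10 ^ 5 + 5 / 10 ^ 6) : ℝ) ≤ A * (1 / 1000) - 16 / 3 / 10 ^ 5 - 16 / 10 ^ 6 -
        10 / 10 ^ 5 - 5 / 10 ^ 6 - 445 / 1000 * (2 / 10 ^ 5 + 5 / 10 ^ 6) := by linarith
    refine le_trans ?_ (mul_le_mul_of_nonneg_left hb (by norm_num : (0 : ℝ) ≤ 1 / 19960))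
    norm_num
  linarith

private theorem MTN_num2 (V A δ S2 S3 T : ℝ) (hV : 0 < V) (hA4 : A ≤ 4)
    (hδ0 : 0 ≤ δ) (hδ1 : δ ≤ 1 / 10 ^ 6) (e2 : S2 ≤ 8 / 19960)
    (e3 : S3 ≤ 1 / 19960 * (A * (2098 / 1000) + 20 / 10 ^ 5))
    (hmup : T ≤ V * (1 + δ) * (4 * S2 + 1 / 2 * S3)) : T ≤ V := by
  refine hmup.trans ?_
  have ha : A * (2098 / 1000) + 20 / 10 ^ 5 ≤ 9 := by
    have : A * (2098 / 1000) ≤ 4 * (2098 / 1000) := mul_le_mul_of_nonneg_right hA4 (by norm_num)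
    linarith
  have hb : 1 / 19960 * (A * (2098 / 1000) + 20 / 10 ^ 5) ≤ 1 / 19960 * 9 :=
    mul_le_mul_of_nonneg_left ha (by norm_num)
  have hc : 4 * S2 + 1 / 2 * S3 ≤ 1 / 100 := by
    have : (4 * (8 / 19960) + 1 / 2 * (1 / 19960 * 9) : ℝ) ≤ 1 / 100 := by norm_num
    linarith
  have hd : (1 + δ) * (4 * S2 + 1 / 2 * S3) ≤ (1 + δ) * (1 / 100) :=
    mul_le_mul_of_nonneg_left hc (by positivity)
  have he : (1 + δ) * (1 / 100) ≤ 1 := by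
    have : δ ≤ 1 := hδ1.trans (by norm_num)
    linarith
  rw [mul_assoc]
  have hf := mul_le_mul_of_nonneg_left (hd.trans he) hV.le
  rw [mul_one] at hf
  exact hf

private theorem MTN_num3 (V A δ S4 T : ℝ) (hV : 0 < V) (hA4 : A ≤ 4)
    (hδ0 : 0 ≤ δ) (hδ1 : δ ≤ 1 / 10 ^ 6) (e4 : S4 ≤ 1 / 19960 * (A + 2 / 10 ^ 5))
    (hmup2 : T ≤ V * (1 + δ) * S4) : T ≤ V := by
  refine hmup2.trans ?_
  have hc : S4 ≤ 1 / 100 := by
    have : (1 / 19960 * (4 + 2 / 10 ^ 5) : ℝ) ≤ 1 / 100 := by norm_num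
    have h50 : 1 / 19960 * (A + 2 / 10 ^ 5) ≤ 1 / 19960 * (4 + 2 / 10 ^ 5) :=
      mul_le_mul_of_nonneg_left (by linarith) (by norm_num)
    linarith
  have hd : (1 + δ) * S4 ≤ (1 + δ) * (1 / 100) :=
    mul_le_mul_of_nonneg_left hc (by positivity)
  have he : (1 + δ) * (1 / 100) ≤ 1 := by
    have : δ ≤ 1 := hδ1.trans (by norm_num)
    linarith
  rw [mul_assoc]
  have hf := mul_le_mul_of_nonneg_left (hd.trans he) hV.le
  rw [mul_one] at hf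
  exact hf

private theorem MTN_r1 (h : ℝ) (hh : 0 < h) : h / (3 / 16 * (19960 * h)) = 16 / 3 / 19960 := by
  rw [div_eq_iff (by positivity)]
  ring

private theorem MTN_r2 (h : ℝ) (hh : 0 < h) : 19960 * h / (3 / 16 * (19960 * h)) = 16 / 3 := by
  rw [div_eq_iff (by positivity)]
  ring

private theorem MTN_r3 (h : ℝ) (hh : 0 < h) : h / (1 / 2 * (19960 * h)) = 2 / 19960 := by
  rw [div_eq_iff (by positivity)]
  ring

private theorem MTN_r4 (h : ℝ) (hh : 0 < h) : 19960 * h / (1 / 2 * (19960 * h)) = 2 := by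
  rw [div_eq_iff (by positivity)]
  ring

private theorem MTN_r5 (h : ℝ) (hh : 0 < h) : 5 / 8 * (19960 * h) / (3 / 16 * (19960 * h)) = 10 / 3 := by
  rw [div_eq_iff (by positivity)]
  ring

theorem MTN (h1 : CHS.PA_stmt) (h2 : CHS.SG_stmt) (h3 : RLS.DP_stmt) (h4 : EXV_stmt)
    (h5 : CPB_stmt) (h6 : LOW_stmt) (h7 : UPW_stmt) (h8 : NHL_stmt) (h9 : WSM_stmt) : MTN_stmt := by
  obtain ⟨A, F, f, hD⟩ := h3 20000 (by norm_num)
  have hA3 := hD.A3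
  have hA4 := hD.A4
  have hN := h8 20000 A F f (by norm_num) hD
  obtain ⟨L₀, hL₀⟩ := h9 20000 A F f (by norm_num) hD (1 / 10 ^ 5) (by norm_num)
  obtain ⟨h₀, hh₀2, hC⟩ := h5 20000 A F f (by norm_num) hD (1 / 10 ^ 5) (by norm_num)
  -- values of `F`
  have hF3 : F 3 = A / 3 := hD.Fs 3 (by norm_num) (by norm_num)
  have hF2 : F 2 = A / 2 := hD.Fs 2 (by norm_num) (by norm_num)
  have hF163 : F (16 / 3) ≤ A / 3 := by
    rw [← hF3]
    exact hD.Fa ⟨by norm_num, by norm_num⟩ ⟨by norm_num, by norm_num⟩ (by norm_num)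
  refine ⟨max L₀ (19960 * max h₀ (4 * 10 ^ 7)), ?_⟩
  intro x Ld hLd hx1 hx2 hlo hup
  have hLd0 : L₀ ≤ Ld := (le_max_left _ _).trans hLd
  have hLd1 : 19960 * max h₀ (4 * 10 ^ 7) ≤ Ld := (le_max_right _ _).trans hLd
  have hm1 : h₀ ≤ max h₀ (4 * 10 ^ 7) := le_max_left _ _
  have hm2 : (4 * 10 ^ 7 : ℝ) ≤ max h₀ (4 * 10 ^ 7) := le_max_right _ _
  have hLbig : (19960 * (4 * 10 ^ 7) : ℝ) ≤ Ld := by linarith
  have hLpos : 0 < Ld := by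
    have : (0 : ℝ) < 19960 * (4 * 10 ^ 7) := by norm_num
    linarith
  set h := Ld / 19960 with hhdef
  have hLh : Ld = 19960 * h := by rw [hhdef]; ring
  have hh0 : h₀ ≤ h := by rw [hhdef, le_div_iff₀ (by norm_num)]; linarith
  have hhx : (4 * 10 ^ 7 : ℝ) ≤ h := by rw [hhdef, le_div_iff₀ (by norm_num)]; linarith
  have hh : 0 < h := by
    have : (0 : ℝ) < 4 * 10 ^ 7 := by norm_num
    linarith
  have hxh : x ≤ h := hx2.trans hhx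
  have hx0 : (2 : ℝ) ≤ x := by
    have : (2 : ℝ) ≤ 2 * 10 ^ 7 := by norm_num
    linarith
  set δ : ℝ := 600 / 3 ^ 19 with hδ
  have hδ0 : 0 ≤ δ := by rw [hδ]; positivity
  have hδ1 : δ ≤ 1 / 10 ^ 6 := by rw [hδ]; norm_num
  -- (1) lower bound
  have e1 : SS false gg Ld (PB h (3 / 16 * Ld)) ≥ 1 / 19960 * (A * (1495 / 1000) - 16 / 3 / 10 ^ 5) := by
    have := (hC h (3 / 16 * Ld) Ld hh0 (by rw [hLh]; linarith) (by rw [hLh]; linarith)).2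
      (by linarith)
    have ha : h / (3 / 16 * Ld) = 16 / 3 / 19960 := by rw [hLh]; exact MTN_r1 h hh
    have hb : Ld / (3 / 16 * Ld) = 16 / 3 := by rw [hLh]; exact MTN_r2 h hh
    rw [ha, hb] at this
    linarith
  have e1' : 0 ≤ SS false gg Ld (PB h (3 / 16 * Ld)) := by
    refine le_trans ?_ e1
    have : (0 : ℝ) ≤ A * (1495 / 1000) - 16 / 3 / 10 ^ 5 := by
      have : (0 : ℝ) < 3 * (1495 / 1000) - 16 / 3 / 10 ^ 5 := by norm_num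
      nlinarith
    positivity
  -- (2) upper bound
  have e2 : SS true gg Ld (PB h (3 / 16 * Ld)) ≤ 8 / 19960 := by
    have := (hC h (3 / 16 * Ld) Ld hh0 (by rw [hLh]; linarith) (by rw [hLh]; linarith)).1
      (by linarith)
    have ha : h / (3 / 16 * Ld) = 16 / 3 / 19960 := by rw [hLh]; exact MTN_r1 h hh
    have hb : Ld / (3 / 16 * Ld) = 16 / 3 := by rw [hLh]; exact MTN_r2 h hh
    rw [ha, hb] at this
    have hc : F (16 / 3) + 1 / 10 ^ 5 ≤ 4 / 3 + 1 / 10 ^ 5 := by linarith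
    have hd : (16 / 3 / 19960 : ℝ) * (F (16 / 3) + 1 / 10 ^ 5) ≤ 16 / 3 / 19960 * (4 / 3 + 1 / 10 ^ 5) :=
      mul_le_mul_of_nonneg_left hc (by norm_num)
    have he : (16 / 3 / 19960 * (4 / 3 + 1 / 10 ^ 5) : ℝ) ≤ 8 / 19960 := by norm_num
    linarith
  -- (3) the sum over the middle primes
  have e3 : ∑ q ∈ PB (3 / 16 * Ld) (5 / 8 * Ld), gg q * SS true gg (Ld - Real.log q) (PB h (3 / 16 * Ld)) ≤
      1 / 19960 * (A * (2098 / 1000) + 20 / 10 ^ 5) := by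
    have hZ2 : (2 : ℝ) ≤ 3 / 16 * Ld := by rw [hLh]; linarith
    have hZ13 : (13 : ℝ) ≤ 3 / 16 * Ld := by rw [hLh]; linarith
    obtain ⟨-, -, -, hp⟩ := h1.2.2.1 (3 / 16 * Ld) (5 / 8 * Ld) hZ2
    have hterm : ∀ q ∈ PB (3 / 16 * Ld) (5 / 8 * Ld),
        gg q * SS true gg (Ld - Real.log q) (PB h (3 / 16 * Ld)) ≤
          1 / 19960 * (gg q * (16 / 3 * F ((Ld - Real.log q) / (3 / 16 * Ld)))) +
            16 / 3 / 19960 / 10 ^ 5 * gg q := by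
      intro q hq
      have hq' := (h1.1 _ _ q).1 hq
      have hg : 0 ≤ gg q := (hp q hq).2.1.le
      have := (hC h (3 / 16 * Ld) (Ld - Real.log q) hh0 (by rw [hLh]; linarith)
        (by have := hq'.2.1; linarith)).1 (by have := hq'.2.2; linarith)
      have ha : h / (3 / 16 * Ld) = 16 / 3 / 19960 := by rw [hLh]; exact MTN_r1 h hh
      rw [ha] at this
      have h20 := mul_le_mul_of_nonneg_left this hg
      refine h20.trans (le_of_eq ?_)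
      ring
    refine (Finset.sum_le_sum hterm).trans ?_
    rw [Finset.sum_add_distrib, ← Finset.mul_sum, ← Finset.mul_sum]
    have hw := hL₀ Ld hLd0
    have hs : ∑ q ∈ PB (3 / 16 * Ld) (5 / 8 * Ld), gg q ≤ 10 / 3 := by
      have hsg := h2 (3 / 16 * Ld) (5 / 8 * Ld) hZ13 (by linarith)
      have h30 : 5 / 8 * Ld / (3 / 16 * Ld) = 10 / 3 := by rw [hLh]; exact MTN_r5 h hh
      rw [h30] at hsg
      have h31 : Real.log (10 / 3) ≤ 10 / 3 - 1 := Real.log_le_sub_one_of_pos (by norm_num)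
      have h32 : 2 / (3 / 16 * Ld) ≤ 1 := by rw [div_le_one (by linarith)]; exact hZ2
      have h33 : CHS.sig (3 / 16 * Ld) (5 / 8 * Ld) = ∑ q ∈ PB (3 / 16 * Ld) (5 / 8 * Ld), gg q := rfl
      rw [h33] at hsg
      linarith
    have h34 : (16 / 3 / 19960 / 10 ^ 5 : ℝ) * ∑ q ∈ PB (3 / 16 * Ld) (5 / 8 * Ld), gg q ≤
        16 / 3 / 19960 / 10 ^ 5 * (10 / 3) := mul_le_mul_of_nonneg_left hs (by norm_num)
    have h35 : (1 / 19960 : ℝ) * ∑ q ∈ PB (3 / 16 * Ld) (5 / 8 * Ld),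
        gg q * (16 / 3 * F ((Ld - Real.log q) / (3 / 16 * Ld))) ≤
        1 / 19960 * (A * (2098 / 1000) + 1 / 10 ^ 5) := mul_le_mul_of_nonneg_left hw (by norm_num)
    have h36 : (16 / 3 / 19960 / 10 ^ 5 * (10 / 3) : ℝ) ≤ 1 / 19960 * (19 / 10 ^ 5) := by norm_num
    have h37 : (1 / 19960 : ℝ) * (A * (2098 / 1000) + 20 / 10 ^ 5) =
        1 / 19960 * (A * (2098 / 1000) + 1 / 10 ^ 5) + 1 / 19960 * (19 / 10 ^ 5) := by ring
    rw [h37]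
    linarith
  -- (4) the upper bound for the switched primes
  have e4 : SS true gg Ld (PB h (1 / 2 * Ld)) ≤ 1 / 19960 * (A + 2 / 10 ^ 5) := by
    have := (hC h (1 / 2 * Ld) Ld hh0 (by rw [hLh]; linarith) (by rw [hLh]; linarith)).1
      (by linarith)
    have ha : h / (1 / 2 * Ld) = 2 / 19960 := by rw [hLh]; exact MTN_r3 h hh
    have hb : Ld / (1 / 2 * Ld) = 2 := by rw [hLh]; exact MTN_r4 h hh
    rw [ha, hb, hF2] at this
    linarith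
  have hV : 0 < CHS.V (PB x h) := (h1.2.2.1 x h hx0).1
  set V := CHS.V (PB x h) with hVdef
  obtain ⟨C, C', hb, hsup, hval, hmaj, hlow, hmup⟩ := h6 x h (3 / 16 * Ld) (5 / 8 * Ld) Ld (19 * h) δ
    hx0 hxh (by rw [hLh]; linarith) (by linarith) (by linarith) (by linarith) hδ0
    (hδ1.trans (by norm_num)) hlo hup e1'
  obtain ⟨C₂, hb2, hsup2, hval2, hmup2⟩ := h7 x h (1 / 2 * Ld) Ld (19 * h) δ hx0 hxh
    (by rw [hLh]; linarith) (by linarith) hδ0 hup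
  have hsub : PB x (1 / 2 * Ld) ⊆ PB x (5 / 8 * Ld) := by
    intro p hp
    rw [h1.1] at hp ⊢
    exact ⟨hp.1, hp.2.1, by linarith [hp.2.2]⟩
  have hC2sum : ∑ F ∈ (PB x (5 / 8 * Ld)).powerset, C₂ F * CHS.g F =
      ∑ F ∈ (PB x (1 / 2 * Ld)).powerset, C₂ F * CHS.g F := by
    rw [MTN_restrict C₂ CHS.g (PB x (1 / 2 * Ld)) (PB x (5 / 8 * Ld)) (fun F hF => (hsup2 F hF).1),
      Finset.inter_eq_right.2 hsub]
  have hC2nn : 0 ≤ ∑ F ∈ (PB x (1 / 2 * Ld)).powerset, C₂ F * CHS.g F := by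
    obtain ⟨-, -, -, hp⟩ := h1.2.2.1 x (1 / 2 * Ld) hx0
    have := (h4 (PB x (1 / 2 * Ld)) gg C₂ (fun p hp' => ⟨(hp p hp').2.1.le,
      (hp p hp').2.2.trans (by norm_num)⟩)).2 (fun Γ hΓ => by
        refine le_trans ?_ (hval2 Γ hΓ)
        split_ifs <;> norm_num)
    exact this
  refine ⟨C, C', C₂, fun F => ⟨(hb F).1, (hb F).2, hb2 F⟩, ?_, hval, hmaj, ?_, ?_, ?_, ?_, ?_⟩
  · rintro F (hF | hF | hF)
    · exact hsup F (Or.inl hF)
    · exact hsup F (Or.inr hF)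
    · exact ⟨(hsup2 F hF).1.trans hsub, (hsup2 F hF).2⟩
  · intro Γ hΓ
    rw [MTN_restrict1 C₂ (PB x (1 / 2 * Ld)) Γ (fun F hF => (hsup2 F hF).1)]
    exact hval2 _ Finset.inter_subset_right
  · rw [hC2sum]
    exact MTN_num1 V A δ _ _ _ _ _ _ hV hA3 hA4 hδ0 hδ1 e1 e2 e3 e4 hlow hmup2
  · exact MTN_num2 V A δ _ _ _ hV hA4 hδ0 hδ1 e2 e3 hmup
  · rw [hC2sum]
    exact hC2nn
  · rw [hC2sum]
    exact MTN_num3 V A δ _ _ hV hA4 hδ0 hδ1 e4 hmup2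

end Pool.Agent.EC
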