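import Pool.Agent.helper26.EC.SpecE

/-!
# Project EC: row COR
-/

set_option autoImplicit false

namespace Pool.Agent.EC

open Finset ArithmeticFunction
open Pool.Agent.CH (Win rgh dl eU Mo ClP ClB)

/-- `wt` as a sum over an interval -/
private theorem COR_wt (K Q : ℝ) (l : ℕ → ℝ) (hl : Adm K Q l) (a : ℕ) (ha : 1 ≤ a) :
    wt l a = ∑ m ∈ Icc 1 ⌊Q⌋₊, if m ∣ a then l m else 0 := by
  unfold wt
  rw [← Finset.sum_filter]
  symm
  apply Finset.sum_subset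
  · intro m hm
    rw [Finset.mem_filter] at hm
    exact Nat.mem_divisors.2 ⟨hm.2, by omega⟩
  · intro m hm hm'
    by_contra h
    apply hm'
    have h1 := Nat.mem_divisors.1 hm
    rw [Finset.mem_filter, Finset.mem_Icc]
    exact ⟨⟨Nat.pos_of_mem_divisors hm, Nat.le_floor (hl.2 m h).2.2⟩, h1.1⟩

/-- rough numbers are prime to `30` -/
private theorem COR_cop (z : ℝ) (hz : 5 ≤ z) (d : ℕ) (hd : rgh z d) : Nat.Coprime d 30 := by
  apply Nat.Coprime.symm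
  rw [show (30 : ℕ) = 2 * 3 * 5 by norm_num]
  have h : ∀ p : ℕ, p.Prime → p ≤ 5 → Nat.Coprime p d := by
    intro p hp h5
    rw [Nat.Prime.coprime_iff_not_dvd hp]
    intro h
    have h1 := hd.2 p hp h
    have h2 : (p : ℝ) ≤ 5 := by exact_mod_cast h5
    linarith
  exact Nat.Coprime.mul_left (Nat.Coprime.mul_left (h 2 (by norm_num) (by norm_num))
    (h 3 (by norm_num) (by norm_num))) (h 5 (by norm_num) (by norm_num))

/-- the local factors at the divisor -/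
private theorem COR_prod (N : ℕ) (z : ℝ) (hN : 2 ≤ N) (hz : 2 + 4 * Real.log N ≤ z) (d : ℕ)
    (hd : rgh z d) (hdN : (d : ℝ) ≤ (N : ℝ) ^ (6 / 5 : ℝ)) :
    ∏ p ∈ d.primeFactors, ((p : ℝ) - 1) / (p - 2) ≤ 2 := by
  have hN1 : (1 : ℝ) < N := by exact_mod_cast (by omega : 1 < N)
  have hL : 0 < Real.log N := Real.log_pos hN1
  have hz2 : 0 < z - 2 := by linarith
  have h1 : ∏ p ∈ d.primeFactors, ((p : ℝ) - 1) / (p - 2) ≤
      ∏ p ∈ d.primeFactors, Real.exp (1 / (z - 2)) := by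
    apply Finset.prod_le_prod
    · intro p hp
      have h2 := hd.2 p (Nat.prime_of_mem_primeFactors hp) (Nat.dvd_of_mem_primeFactors hp)
      exact div_nonneg (by linarith) (by linarith)
    · intro p hp
      have h2 := hd.2 p (Nat.prime_of_mem_primeFactors hp) (Nat.dvd_of_mem_primeFactors hp)
      have h3 : ((p : ℝ) - 1) / (p - 2) = 1 + 1 / (p - 2) := by
        have : (p : ℝ) - 2 ≠ 0 := by linarith
        field_simp
        ring
      rw [h3]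
      have h4 : 1 / ((p : ℝ) - 2) ≤ 1 / (z - 2) := one_div_le_one_div_of_le hz2 (by linarith)
      have h5 := Real.add_one_le_exp (1 / (z - 2))
      linarith
  rw [Finset.prod_const, ← Real.exp_nat_mul] at h1
  refine h1.trans ?_
  -- number of prime factors
  have h6 : 2 ^ #d.primeFactors ≤ d := by
    have h7 : 2 ^ #d.primeFactors ≤ ∏ p ∈ d.primeFactors, p := by
      apply Finset.pow_card_le_prod
      intro p hp
      exact (Nat.prime_of_mem_primeFactors hp).two_le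
    exact h7.trans (Nat.le_of_dvd (Nat.pos_of_ne_zero hd.1) (Nat.prod_primeFactors_dvd d))
  have h8 : (#d.primeFactors : ℝ) * Real.log 2 ≤ 6 / 5 * Real.log N := by
    have h9 : ((2 : ℝ) ^ #d.primeFactors) ≤ (N : ℝ) ^ (6 / 5 : ℝ) := by
      refine le_trans ?_ hdN
      exact_mod_cast h6
    have h10 := Real.log_le_log (by positivity) h9
    rwa [Real.log_pow, Real.log_rpow (by linarith)] at h10
  have h11 : (#d.primeFactors : ℝ) ≤ 2 * Real.log N := by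
    have := Real.log_two_gt_d9
    nlinarith [Nat.cast_nonneg (α := ℝ) #d.primeFactors]
  have h12 : (#d.primeFactors : ℝ) * (1 / (z - 2)) ≤ 1 / 2 := by
    rw [mul_one_div, div_le_iff₀ hz2]
    linarith
  refine (Real.exp_le_exp.2 h12).trans ?_
  have h13 : Real.exp (1 / 2) ^ 2 = Real.exp 1 := by
    rw [← Real.exp_nat_mul]
    norm_num
  have h14 := Real.exp_one_lt_d9
  nlinarith [Real.exp_pos (1 / 2)]

open Classical in
private theorem COR_core (N : ℕ) (s : ℕ → ℕ) (K Q z CT : ℝ) (l lam : ℕ → ℝ) (d a : ℕ)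
    (hQ : 0 ≤ Q) (hz : 5 ≤ z) (hCT : 0 < CT) (hK : 0 < K)
    (hf : ∀ j : ℕ, 0 ≤ fN N j)
    (hl : Adm K Q l) (hw : ∀ a : ℕ, 1 ≤ a → 0 ≤ wt l a)
    (hlam : Adm 1 z lam) (hwl : ∀ a : ℕ, 1 ≤ a → 0 ≤ wt lam a)
    (hwr : ∀ a : ℕ, rgh z a → 1 ≤ wt lam a) (hd : rgh z d)
    (hs1 : ∀ j ∈ Win N, 1 ≤ s j)
    (hs2 : ∀ e m : ℕ, 1 ≤ e → 1 ≤ m → Nat.Coprime e 30 → Nat.Coprime m 30 →
      |∑ j ∈ Win N with e ∣ j ∧ m ∣ s j ∧ j % 30 = a, fN N j -
        (if Nat.Coprime m e then XN N / (30 * (e : ℝ) * m) else 0)| ≤ CT) :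
    ∑ j ∈ Win N with d ∣ j ∧ rgh z (j / d) ∧ j % 30 = a, fN N j * wt l (s j) ≤
      XN N / (30 * d) * (∑ m ∈ Icc 1 ⌊Q⌋₊ with Nat.Coprime m d, ∑ t ∈ Icc 1 ⌊z⌋₊ with Nat.Coprime m t,
        l m * lam t / ((m : ℝ) * t)) + CT * K * (Q * z) := by
  have hd1 : 1 ≤ d := Nat.pos_of_ne_zero hd.1
  have hd30 := COR_cop z hz d hd
  have hj1 : ∀ j ∈ Win N, 1 ≤ j := by
    intro j hj
    unfold Win at hj
    rw [Finset.mem_Ioc] at hj
    omega
  -- the rough condition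
  have step1 : ∑ j ∈ Win N with d ∣ j ∧ rgh z (j / d) ∧ j % 30 = a, fN N j * wt l (s j) ≤
      ∑ j ∈ Win N with d ∣ j ∧ j % 30 = a, fN N j * wt l (s j) * wt lam (j / d) := by
    have h1 : ∑ j ∈ Win N with d ∣ j ∧ rgh z (j / d) ∧ j % 30 = a, fN N j * wt l (s j) ≤
        ∑ j ∈ Win N with d ∣ j ∧ rgh z (j / d) ∧ j % 30 = a, fN N j * wt l (s j) * wt lam (j / d) := by
      apply Finset.sum_le_sum
      intro j hj
      rw [Finset.mem_filter] at hj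
      have h2 := hwr _ hj.2.2.1
      have h3 : 0 ≤ fN N j * wt l (s j) := mul_nonneg (hf j) (hw _ (hs1 j hj.1))
      nlinarith
    refine h1.trans ?_
    apply Finset.sum_le_sum_of_subset_of_nonneg
    · intro j hj
      rw [Finset.mem_filter] at hj ⊢
      exact ⟨hj.1, hj.2.1, hj.2.2.2⟩
    · intro j hj _
      rw [Finset.mem_filter] at hj
      have h4 : 1 ≤ j / d := Nat.div_pos (Nat.le_of_dvd (hj1 j hj.1) hj.2.1) hd1
      exact mul_nonneg (mul_nonneg (hf j) (hw _ (hs1 j hj.1))) (hwl _ h4)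
  refine step1.trans ?_
  -- expansion
  have step2 : ∑ j ∈ Win N with d ∣ j ∧ j % 30 = a, fN N j * wt l (s j) * wt lam (j / d) =
      ∑ m ∈ Icc 1 ⌊Q⌋₊, ∑ t ∈ Icc 1 ⌊z⌋₊, l m * lam t *
        ∑ j ∈ Win N with d * t ∣ j ∧ m ∣ s j ∧ j % 30 = a, fN N j := by
    have h1 : ∀ j ∈ (Win N).filter (fun j => d ∣ j ∧ j % 30 = a),
        fN N j * wt l (s j) * wt lam (j / d) = ∑ m ∈ Icc 1 ⌊Q⌋₊, ∑ t ∈ Icc 1 ⌊z⌋₊,
          if t ∣ j / d ∧ m ∣ s j then l m * lam t * fN N j else 0 := by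
      intro j hj
      rw [Finset.mem_filter] at hj
      have h4 : 1 ≤ j / d := Nat.div_pos (Nat.le_of_dvd (hj1 j hj.1) hj.2.1) hd1
      rw [COR_wt K Q l hl (s j) (hs1 j hj.1), COR_wt 1 z lam hlam (j / d) h4, mul_assoc,
        Finset.sum_mul_sum, Finset.mul_sum]
      apply Finset.sum_congr rfl
      intro m _
      rw [Finset.mul_sum]
      apply Finset.sum_congr rfl
      intro t _
      by_cases h5 : m ∣ s j
      · by_cases h6 : t ∣ j / d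
        · rw [if_pos h5, if_pos h6, if_pos ⟨h6, h5⟩]
          ring
        · rw [if_neg h6, if_neg (show ¬ (t ∣ j / d ∧ m ∣ s j) from fun h => h6 h.1), mul_zero,
            mul_zero]
      · rw [if_neg h5, if_neg (show ¬ (t ∣ j / d ∧ m ∣ s j) from fun h => h5 h.2), zero_mul,
          mul_zero]
    rw [Finset.sum_congr rfl h1, Finset.sum_comm]
    apply Finset.sum_congr rfl
    intro m _
    rw [Finset.sum_comm]
    apply Finset.sum_congr rfl
    intro t _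
    rw [← Finset.sum_filter, Finset.filter_filter, Finset.mul_sum]
    apply Finset.sum_congr
    · ext j
      rw [Finset.mem_filter, Finset.mem_filter]
      constructor
      · rintro ⟨h2, ⟨h3, h4⟩, h5, h6⟩
        refine ⟨h2, ?_, h6, h4⟩
        exact (Nat.dvd_div_iff_mul_dvd h3).1 h5
      · rintro ⟨h2, h3, h4, h5⟩
        have h6 : d ∣ j := (Dvd.intro t rfl).trans h3
        exact ⟨h2, ⟨h6, h5⟩, (Nat.dvd_div_iff_mul_dvd h6).2 h3, h4⟩
    · intro j _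
      rfl
  rw [step2]
  -- LCT
  have step3 : ∀ m ∈ Icc 1 ⌊Q⌋₊, ∀ t ∈ Icc 1 ⌊z⌋₊, l m * lam t *
        ∑ j ∈ Win N with d * t ∣ j ∧ m ∣ s j ∧ j % 30 = a, fN N j ≤
      (if Nat.Coprime m d then (if Nat.Coprime m t then XN N / (30 * d) * (l m * lam t / ((m : ℝ) * t))
        else 0) else 0) + CT * K := by
    intro m hm t ht
    rw [Finset.mem_Icc] at hm ht
    have hCK : 0 ≤ CT * K := (mul_pos hCT hK).le
    by_cases h0 : l m * lam t = 0
    · rw [h0]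
      simp only [zero_mul, zero_div, mul_zero, ite_self, zero_add]
      exact hCK
    have hlm : l m ≠ 0 := left_ne_zero_of_mul h0
    have hlt : lam t ≠ 0 := right_ne_zero_of_mul h0
    have h1 := hs2 (d * t) m (Nat.mul_pos hd1 ht.1) hm.1
      (Nat.Coprime.mul_left hd30 (hlam.2 t hlt).2.1) (hl.2 m hlm).2.1
    set S := ∑ j ∈ Win N with d * t ∣ j ∧ m ∣ s j ∧ j % 30 = a, fN N j with hS
    have h2 : (if Nat.Coprime m d then (if Nat.Coprime m t then XN N / (30 * d) *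
        (l m * lam t / ((m : ℝ) * t)) else 0) else 0) = l m * lam t *
        (if Nat.Coprime m (d * t) then XN N / (30 * ((d * t : ℕ) : ℝ) * m) else 0) := by
      by_cases h3 : Nat.Coprime m d
      · by_cases h4 : Nat.Coprime m t
        · rw [if_pos h3, if_pos h4, if_pos (Nat.Coprime.mul_right h3 h4)]
          have hd0 : (d : ℝ) ≠ 0 := by exact_mod_cast (by omega : d ≠ 0)
          have hm0 : (m : ℝ) ≠ 0 := by exact_mod_cast (by omega : m ≠ 0)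
          have ht0 : (t : ℝ) ≠ 0 := by exact_mod_cast (by omega : t ≠ 0)
          push_cast
          field_simp
        · rw [if_pos h3, if_neg h4, if_neg (show ¬ Nat.Coprime m (d * t) from
            fun h => h4 (Nat.Coprime.coprime_mul_left_right h)), mul_zero]
      · rw [if_neg h3, if_neg (show ¬ Nat.Coprime m (d * t) from
          fun h => h3 (Nat.Coprime.coprime_mul_right_right h)), mul_zero]
    rw [h2]
    set T := (if Nat.Coprime m (d * t) then XN N / (30 * ((d * t : ℕ) : ℝ) * m) else 0) with hT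
    have h5 : l m * lam t * S - l m * lam t * T ≤ CT * K := by
      have h6 : l m * lam t * S - l m * lam t * T ≤ |l m| * |lam t| * |S - T| := by
        rw [← mul_sub, ← abs_mul, ← abs_mul]
        exact le_abs_self _
      have h7 : |l m| * |lam t| ≤ K * 1 :=
        mul_le_mul (hl.1 m) (hlam.1 t) (abs_nonneg _) hK.le
      have h8 : |l m| * |lam t| * |S - T| ≤ K * 1 * CT :=
        mul_le_mul h7 h1 (abs_nonneg _) (by linarith)
      linarith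
    linarith
  have step4 : ∑ m ∈ Icc 1 ⌊Q⌋₊, ∑ t ∈ Icc 1 ⌊z⌋₊, l m * lam t *
        ∑ j ∈ Win N with d * t ∣ j ∧ m ∣ s j ∧ j % 30 = a, fN N j ≤
      ∑ m ∈ Icc 1 ⌊Q⌋₊, ∑ t ∈ Icc 1 ⌊z⌋₊, ((if Nat.Coprime m d then (if Nat.Coprime m t then
        XN N / (30 * d) * (l m * lam t / ((m : ℝ) * t)) else 0) else 0) + CT * K) :=
    Finset.sum_le_sum fun m hm => Finset.sum_le_sum fun t ht => step3 m hm t ht
  refine step4.trans ?_
  have step5 : ∑ m ∈ Icc 1 ⌊Q⌋₊, ∑ t ∈ Icc 1 ⌊z⌋₊, ((if Nat.Coprime m d then (if Nat.Coprime m t then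
        XN N / (30 * d) * (l m * lam t / ((m : ℝ) * t)) else 0) else 0) + CT * K) =
      XN N / (30 * d) * (∑ m ∈ Icc 1 ⌊Q⌋₊ with Nat.Coprime m d, ∑ t ∈ Icc 1 ⌊z⌋₊ with Nat.Coprime m t,
        l m * lam t / ((m : ℝ) * t)) + (⌊Q⌋₊ : ℝ) * ((⌊z⌋₊ : ℝ) * (CT * K)) := by
    rw [Finset.sum_filter, Finset.mul_sum]
    have h1 : (⌊Q⌋₊ : ℝ) * ((⌊z⌋₊ : ℝ) * (CT * K)) = ∑ m ∈ Icc 1 ⌊Q⌋₊, ((⌊z⌋₊ : ℝ) * (CT * K)) := by
      rw [Finset.sum_const, Nat.card_Icc, nsmul_eq_mul, Nat.add_sub_cancel]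
    rw [h1, ← Finset.sum_add_distrib]
    apply Finset.sum_congr rfl
    intro m _
    rw [Finset.sum_add_distrib, Finset.sum_const, Nat.card_Icc, nsmul_eq_mul, Nat.add_sub_cancel]
    by_cases h3 : Nat.Coprime m d
    · simp only [if_pos h3]
      rw [Finset.sum_filter, Finset.mul_sum]
      congr 1
      apply Finset.sum_congr rfl
      intro t _
      split_ifs
      · rfl
      · rw [mul_zero]
    · simp only [if_neg h3, mul_zero, Finset.sum_const_zero]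
  rw [step5]
  have h1 : (⌊Q⌋₊ : ℝ) ≤ Q := Nat.floor_le hQ
  have h2 : (⌊z⌋₊ : ℝ) ≤ z := Nat.floor_le (by linarith)
  have h3 : (⌊Q⌋₊ : ℝ) * (⌊z⌋₊ : ℝ) ≤ Q * z := mul_le_mul h1 h2 (Nat.cast_nonneg _) hQ
  have h4 := mul_le_mul_of_nonneg_right h3 (mul_pos hCT hK).le
  linarith

/-- the asymptotics of `yN` -/
private theorem COR_asy (z₀ D : ℝ) : ∃ N₀ : ℕ, ∀ N : ℕ, N₀ ≤ N → z₀ ≤ yN N ∧
    5 + 4 * Real.log N ≤ yN N ∧ D ≤ (N : ℝ) ^ (7 / 20 : ℝ) := by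
  have hL : Filter.Tendsto (fun N : ℕ => Real.log (N : ℝ)) Filter.atTop Filter.atTop :=
    Real.tendsto_log_atTop.comp tendsto_natCast_atTop_atTop
  have hdl : Filter.Tendsto (fun N : ℕ => dl (N : ℝ)) Filter.atTop Filter.atTop := by
    have := (tendsto_rpow_atTop (by norm_num : (0 : ℝ) < 19 / 20)).comp hL
    exact this
  have hy : Filter.Tendsto (fun N : ℕ => yN N) Filter.atTop Filter.atTop :=
    Real.tendsto_exp_atTop.comp hdl
  have h3 : Filter.Tendsto (fun N : ℕ => (N : ℝ) ^ (7 / 20 : ℝ)) Filter.atTop Filter.atTop :=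
    (tendsto_rpow_atTop (by norm_num : (0 : ℝ) < 7 / 20)).comp tendsto_natCast_atTop_atTop
  have hev : ∀ᶠ N : ℕ in Filter.atTop, z₀ ≤ yN N ∧
      5 + 4 * Real.log N ≤ yN N ∧ D ≤ (N : ℝ) ^ (7 / 20 : ℝ) := by
    filter_upwards [hy.eventually_ge_atTop z₀, hdl.eventually_ge_atTop 30,
      h3.eventually_ge_atTop D, hL.eventually_ge_atTop 1] with N h1 h2 h3 h4
    refine ⟨h1, ?_, h3⟩
    set u := dl (N : ℝ) with hu
    have h5 : Real.log (N : ℝ) ≤ u ^ 2 := by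
      have h6 : (u : ℝ) ^ (20 / 19 : ℝ) = Real.log N := by
        rw [hu]
        unfold dl
        rw [← Real.rpow_mul (by linarith)]
        norm_num
      rw [← h6, ← Real.rpow_natCast]
      exact Real.rpow_le_rpow_of_exponent_le (by linarith) (by norm_num)
    have h7 : u ^ 3 / (Nat.factorial 3 : ℝ) ≤ Real.exp u :=
      Real.pow_div_factorial_le_exp u (by linarith) 3
    have h8 : (Nat.factorial 3 : ℝ) = 6 := by
      norm_num [Nat.factorial]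
    rw [h8] at h7
    unfold yN
    rw [← hu]
    have h9 : 5 * u ^ 2 ≤ u ^ 3 / 6 := by nlinarith [sq_nonneg u]
    nlinarith
  exact Filter.eventually_atTop.1 hev

open Classical in
private theorem COR_fin (N : ℕ) (s : ℕ → ℕ) (ε K z CT CU : ℝ) (l : ℕ → ℝ) (d a : ℕ)
    (hCRD : CRD_stmt) (hTRB : TRB_stmt) (hMTA : MTA_stmt)
    (hN : 4 ≤ N) (hε : 0 < ε) (hz : 5 + 4 * Real.log N ≤ z) (hz2 : z ≤ (N : ℝ) ^ (1 / 20 : ℝ))
    (hCT : 0 < CT) (hCU : 0 < CU) (hK : 0 < K) (hD : CT * K ≤ (N : ℝ) ^ (7 / 20 : ℝ))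
    (hl : Adm K ((N : ℝ) ^ (1 / 2 - ε)) l) (hw : ∀ a : ℕ, 1 ≤ a → 0 ≤ wt l a)
    (lam : ℕ → ℝ) (hlam : Adm 1 z lam) (hwl : ∀ a : ℕ, 1 ≤ a → 0 ≤ wt lam a)
    (hwr : ∀ a : ℕ, rgh z a → 1 ≤ wt lam a) (hmt : mt z lam ≤ CU / Real.log z) (hd : rgh z d)
    (hdN : (d : ℝ) ≤ (N : ℝ) ^ (6 / 5 : ℝ))
    (hs1 : ∀ j ∈ Win N, 1 ≤ s j)
    (hs2 : ∀ e m : ℕ, 1 ≤ e → 1 ≤ m → Nat.Coprime e 30 → Nat.Coprime m 30 → a < 30 →
      |∑ j ∈ Win N with e ∣ j ∧ m ∣ s j ∧ j % 30 = a, fN N j -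
        (if Nat.Coprime m e then XN N / (30 * (e : ℝ) * m) else 0)| ≤ CT) :
    ∑ j ∈ Win N with d ∣ j ∧ rgh z (j / d) ∧ j % 30 = a, fN N j * wt l (s j) ≤
      CU * (N : ℝ) ^ 2 / (d * Real.log z) * mt ((N : ℝ) ^ (1 / 2 - ε)) l + (N : ℝ) ^ (9 / 10 : ℝ) := by
  have hN1 : (1 : ℝ) < N := by exact_mod_cast (by omega : 1 < N)
  have hN0 : (0 : ℝ) < N := by linarith
  have hL : 0 < Real.log N := Real.log_pos hN1
  have hz5 : 5 ≤ z := by linarith
  have hlz : 0 < Real.log z := Real.log_pos (by linarith)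
  have hd1 : 1 ≤ d := Nat.pos_of_ne_zero hd.1
  have hd0 : (0 : ℝ) < d := by exact_mod_cast hd1
  have hm1 : 0 ≤ mt ((N : ℝ) ^ (1 / 2 - ε)) l := hMTA.1 K _ l hl hw
  have hm2 : 0 ≤ mt z lam := hMTA.1 1 z lam hlam hwl
  have hR : 0 ≤ CU * (N : ℝ) ^ 2 / (d * Real.log z) * mt ((N : ℝ) ^ (1 / 2 - ε)) l :=
    mul_nonneg (div_nonneg (by positivity) (mul_pos hd0 hlz).le) hm1
  by_cases ha : a < 30
  · have h1 := COR_core N s K ((N : ℝ) ^ (1 / 2 - ε)) z CT l lam d a (by positivity) hz5 hCT hK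
      (fun j => (hTRB.1 N j).1) hl hw hlam hwl hwr hd hs1
      (fun e m h1 h2 h3 h4 => hs2 e m h1 h2 h3 h4 ha)
    refine h1.trans ?_
    obtain ⟨hX0, hX1⟩ := hTRB.2.2 N hN
    have h2 := hCRD K ((N : ℝ) ^ (1 / 2 - ε)) 1 z l lam d hl hlam hd1 (COR_cop z hz5 d hd) hw hwl
    have h3 := COR_prod N z (by omega) (by linarith) d hd hdN
    have h4 : 0 ≤ mt ((N : ℝ) ^ (1 / 2 - ε)) l * mt z lam := mul_nonneg hm1 hm2
    have h5 : 2 * (∏ p ∈ d.primeFactors, ((p : ℝ) - 1) / (p - 2)) *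
        (mt ((N : ℝ) ^ (1 / 2 - ε)) l * mt z lam) ≤
        4 * (mt ((N : ℝ) ^ (1 / 2 - ε)) l * (CU / Real.log z)) := by
      have h6 : 2 * (∏ p ∈ d.primeFactors, ((p : ℝ) - 1) / (p - 2)) *
          (mt ((N : ℝ) ^ (1 / 2 - ε)) l * mt z lam) ≤
          4 * (mt ((N : ℝ) ^ (1 / 2 - ε)) l * mt z lam) :=
        mul_le_mul_of_nonneg_right (by linarith) h4
      have h7 := mul_le_mul_of_nonneg_left hmt hm1
      linarith
    have h8 := h2.trans h5
    have h9 : XN N / (30 * d) * (∑ m ∈ Icc 1 ⌊(N : ℝ) ^ (1 / 2 - ε)⌋₊ with Nat.Coprime m d,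
        ∑ t ∈ Icc 1 ⌊z⌋₊ with Nat.Coprime m t, l m * lam t / ((m : ℝ) * t)) ≤
        XN N / (30 * d) * (4 * (mt ((N : ℝ) ^ (1 / 2 - ε)) l * (CU / Real.log z))) :=
      mul_le_mul_of_nonneg_left h8 (div_nonneg hX0 (by positivity))
    have h10 : XN N / (30 * d) * (4 * (mt ((N : ℝ) ^ (1 / 2 - ε)) l * (CU / Real.log z))) ≤
        CU * (N : ℝ) ^ 2 / (d * Real.log z) * mt ((N : ℝ) ^ (1 / 2 - ε)) l := by
      have h11 : XN N / (30 * d) ≤ 4 * (N : ℝ) ^ 2 / (30 * d) :=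
        div_le_div_of_nonneg_right hX1 (by positivity)
      have h12 : 0 ≤ mt ((N : ℝ) ^ (1 / 2 - ε)) l * (CU / Real.log z) :=
        mul_nonneg hm1 (div_nonneg hCU.le hlz.le)
      have h13 : XN N / (30 * d) * (4 * (mt ((N : ℝ) ^ (1 / 2 - ε)) l * (CU / Real.log z))) ≤
          4 * (N : ℝ) ^ 2 / (30 * d) * (4 * (mt ((N : ℝ) ^ (1 / 2 - ε)) l * (CU / Real.log z))) :=
        mul_le_mul_of_nonneg_right h11 (by linarith)
      refine h13.trans ?_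
      have h14 : 4 * (N : ℝ) ^ 2 / (30 * d) * (4 * (mt ((N : ℝ) ^ (1 / 2 - ε)) l * (CU / Real.log z))) =
          16 / 30 * (CU * (N : ℝ) ^ 2 / (d * Real.log z) * mt ((N : ℝ) ^ (1 / 2 - ε)) l) := by
        field_simp
        ring
      rw [h14]
      linarith
    have h15 : (N : ℝ) ^ (1 / 2 - ε) * z ≤ (N : ℝ) ^ (11 / 20 : ℝ) := by
      have h16 : (N : ℝ) ^ (1 / 2 - ε) ≤ (N : ℝ) ^ (1 / 2 : ℝ) :=
        Real.rpow_le_rpow_of_exponent_le hN1.le (by linarith)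
      have h17 : (N : ℝ) ^ (1 / 2 - ε) * z ≤ (N : ℝ) ^ (1 / 2 : ℝ) * (N : ℝ) ^ (1 / 20 : ℝ) :=
        mul_le_mul h16 hz2 (by linarith) (by positivity)
      rw [← Real.rpow_add hN0] at h17
      norm_num at h17 ⊢
      exact h17
    have h18 : CT * K * ((N : ℝ) ^ (1 / 2 - ε) * z) ≤ (N : ℝ) ^ (9 / 10 : ℝ) := by
      have h19 : CT * K * ((N : ℝ) ^ (1 / 2 - ε) * z) ≤
          (N : ℝ) ^ (7 / 20 : ℝ) * (N : ℝ) ^ (11 / 20 : ℝ) :=
        mul_le_mul hD h15 (by positivity) (by positivity)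
      rw [← Real.rpow_add hN0] at h19
      norm_num at h19 ⊢
      exact h19
    linarith
  · have h1 : (Win N).filter (fun j => d ∣ j ∧ rgh z (j / d) ∧ j % 30 = a) = ∅ := by
      rw [Finset.filter_eq_empty_iff]
      rintro j _ ⟨_, _, h⟩
      have := Nat.mod_lt j (by norm_num : 0 < 30)
      omega
    rw [h1, Finset.sum_empty]
    have : 0 ≤ (N : ℝ) ^ (9 / 10 : ℝ) := by positivity
    linarith

theorem COR (hLCT : LCT_stmt) (hCRD : CRD_stmt) (hUPS : UPS_stmt) (hTRB : TRB_stmt)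
    (hMTA : MTA_stmt) : COR_stmt := by
  obtain ⟨CT, hCT, hLCT⟩ := hLCT
  obtain ⟨CU, z₀, hCU, hz₀, hUPS⟩ := hUPS
  refine ⟨CU, hCU, ?_⟩
  intro ε K hε hK
  obtain ⟨N₀, hN₀⟩ := COR_asy z₀ (CT * K)
  refine ⟨max N₀ 4, ?_⟩
  intro N hN z hz1 hz2 l hl hw d a hdN hd
  obtain ⟨h1, h2, h3⟩ := hN₀ N ((le_max_left _ _).trans hN)
  have hN4 : 4 ≤ N := (le_max_right _ _).trans hN
  obtain ⟨lam, hlam, hwl, hwr, hmt⟩ := hUPS z (h1.trans hz1)
  constructor
  · exact COR_fin N (fun j => j + 6) ε K z CT CU l d a hCRD hTRB hMTA hN4 hε (h2.trans hz1) hz2 hCT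
      hCU hK h3 hl hw lam hlam hwl hwr hmt hd hdN (fun j _ => by omega)
      (fun e m k1 k2 k3 k4 k5 => (hLCT N e m a hN4 k1 k2 k3 k4 k5).1)
  · refine COR_fin N (fun j => j - 6) ε K z CT CU l d a hCRD hTRB hMTA hN4 hε (h2.trans hz1) hz2 hCT
      hCU hK h3 hl hw lam hlam hwl hwr hmt hd hdN ?_
      (fun e m k1 k2 k3 k4 k5 => (hLCT N e m a hN4 k1 k2 k3 k4 k5).2)
    intro j hj
    unfold Win at hj
    rw [Finset.mem_Ioc] at hj
    have h4 : 4 ^ 3 ≤ N ^ 3 := Nat.pow_le_pow_left hN4 3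
    show 1 ≤ j - 6
    omega

end Pool.Agent.EC
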