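import Pool.Agent.helper26.EC.SpecW

/-!
# Project EC: row SWT
-/

set_option autoImplicit false

namespace Pool.Agent.EC

open Finset ArithmeticFunction
open Pool.Agent.CH (Win)

private theorem SWT_mem {b : Bool} {r : ℕ} {j : Fin r → ℕ} (hj : j ∈ JJ b r) :
    (∀ i, 30 ≤ j i ∧ j i ≤ 480 ∧ (i.val ≠ 0 → 100 ≤ j i)) ∧ ∑ i, j i ≤ 861 := by
  unfold JJ at hj
  rw [Finset.mem_filter, Fintype.mem_piFinset] at hj
  refine ⟨fun i => ?_, hj.2⟩
  have h := hj.1 i
  split_ifs at h with hc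
  · rw [Finset.mem_Ico] at h
    exact ⟨by omega, by omega, fun h0 => absurd hc.2 h0⟩
  · rw [Finset.mem_Ico] at h
    exact ⟨by omega, by omega, fun _ => h.1⟩

private theorem SWT_low (r : ℕ) (hr : 4 ≤ r) (j : Fin r → ℕ)
    (h : ∀ i, 30 ≤ j i ∧ j i ≤ 480 ∧ (i.val ≠ 0 → 100 ≤ j i)) : 330 ≤ ∑ i, j i := by
  obtain ⟨s, rfl⟩ : ∃ s, r = s + 1 := ⟨r - 1, by omega⟩
  rw [Fin.sum_univ_succ]
  have h1 : ∑ _i : Fin s, 100 ≤ ∑ i : Fin s, j i.succ := by
    apply Finset.sum_le_sum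
    intro i _
    exact (h i.succ).2.2 (by simp)
  rw [Finset.sum_const, Finset.card_univ, Fintype.card_fin, smul_eq_mul] at h1
  have h2 := (h 0).1
  omega

private theorem SWT_AdT {b : Bool} {r : ℕ} (hr : r ∈ Icc 4 9) {j : Fin r → ℕ} (hj : j ∈ JJ b r) :
    AdT (aJ j) (bJ j) := by
  rw [Finset.mem_Icc] at hr
  obtain ⟨h1, h2⟩ := SWT_mem hj
  have h3 := SWT_low r hr.1 j h1
  refine ⟨hr.1, fun i => ⟨?_, ?_⟩, ?_, ?_⟩
  · have : (30 : ℝ) ≤ (j i : ℝ) := by exact_mod_cast (h1 i).1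
    unfold aJ
    positivity
  · have : (j i : ℝ) ≤ 480 := by exact_mod_cast (h1 i).2.1
    unfold bJ
    rw [div_le_iff₀ (by norm_num)]
    linarith
  · have e : ∑ i, aJ j i = 3 / 962 * ((∑ i, j i : ℕ) : ℝ) := by
      unfold aJ
      rw [Nat.cast_sum, Finset.mul_sum]
      exact Finset.sum_congr rfl fun i _ => by ring
    rw [e]
    have : (330 : ℝ) ≤ ((∑ i, j i : ℕ) : ℝ) := by exact_mod_cast h3
    linarith
  · have e : ∑ i, bJ j i = 3 / 962 * (((∑ i, j i : ℕ) : ℝ) + r) := by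
      unfold bJ
      rw [Nat.cast_sum, mul_add, Finset.mul_sum]
      have : ∑ i : Fin r, 3 * ((j i : ℝ) + 1) / 962 = ∑ i : Fin r, (3 / 962 * (j i : ℝ) + 3 / 962) :=
        Finset.sum_congr rfl fun i _ => by ring
      rw [this, Finset.sum_add_distrib, Finset.sum_const, Finset.card_univ, Fintype.card_fin,
        nsmul_eq_mul]
      ring
    rw [e]
    have h4 : ((∑ i, j i : ℕ) : ℝ) ≤ 861 := by exact_mod_cast h2
    have h5 : (r : ℝ) ≤ 9 := by exact_mod_cast hr.2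
    linarith

private theorem SWT_coef {b : Bool} {r : ℕ} (hr : r ∈ Icc 4 9) {j : Fin r → ℕ} (hj : j ∈ JJ b r) :
    0 ≤ om b r (∑ i, j i) * ph r (∑ i, j i) := by
  rw [Finset.mem_Icc] at hr
  obtain ⟨-, h2⟩ := SWT_mem hj
  have h4 : ((∑ i, j i : ℕ) : ℝ) ≤ 861 := by exact_mod_cast h2
  have h5 : (r : ℝ) ≤ 9 := by exact_mod_cast hr.2
  apply mul_nonneg
  · unfold om
    split_ifs <;> positivity
  · unfold ph
    apply div_nonneg (by norm_num)
    linarith

theorem SWT (h1 : SWI_stmt) (h2 : CMP_stmt) (h3 : WCT_stmt) (h4 : DPR_stmt) (h5 : XNB_stmt) :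
    SWT_stmt := by
  intro ε' K hε' hK
  -- the total mass of the coefficients
  set S : ℝ := ∑ b : Bool, ∑ r ∈ Icc 4 9, ∑ j ∈ JJ b r, om b r (∑ i, j i) * ph r (∑ i, j i) with hS
  have hS0 : 0 ≤ S := by
    apply Finset.sum_nonneg
    intro b _
    apply Finset.sum_nonneg
    intro r hr
    apply Finset.sum_nonneg
    intro j hj
    exact SWT_coef hr hj
  set κ : ℝ := ε' / ((S + 1) * K) with hκ
  have hκ0 : 0 < κ := by positivity
  set η : ℝ := ε' / (S + 1) with hη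
  have hη0 : 0 < η := by positivity
  clear_value κ η S
  -- engine for every tuple of cells
  have key : ∀ b : Bool, ∀ r ∈ Icc 4 9, ∀ j ∈ JJ b r, ∀ᶠ N : ℕ in Filter.atTop,
      (∀ l : ℕ → ℝ, Adm K (QL N) l → (∀ a : ℕ, 1 ≤ a → 0 ≤ wt l a) → mt (QL N) l ≤ K / Real.log N →
        ∑ m ∈ Win N with m % 30 = 7, TL N (aJ j) (bJ j) m * fN N m * wt l (m - 6) ≤
          1 / 8 * (∑ m ∈ Win N, TL N (aJ j) (bJ j) m * fN N m) * mt (QL N) l +
            η * (N : ℝ) ^ 2 / Real.log N) ∧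
      ∑ m ∈ Win N, TL N (aJ j) (bJ j) m * fN N m ≤
        (∏ i, Real.log (((j i : ℝ) + 1) / j i) + 2 * κ) * XN N := by
    intro b r hr j hj
    have hA := SWT_AdT hr hj
    obtain ⟨hm1, hm2⟩ := SWT_mem hj
    have hr' := hr
    rw [Finset.mem_Icc] at hr'
    obtain ⟨N₁, hN₁⟩ := h1 r (aJ j) (bJ j) hA (1 / 2000) η K (by norm_num) hη0 hK
    have hD : 0 ≤ ∏ i, Real.log (((j i : ℝ) + 1) / j i) := by
      apply Finset.prod_nonneg
      intro i _
      apply Real.log_nonneg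
      have : (30 : ℝ) ≤ (j i : ℝ) := by exact_mod_cast (hm1 i).1
      rw [le_div_iff₀ (by linarith)]
      linarith
    obtain ⟨N₂, hN₂⟩ := h2 r (aJ j) (bJ j) hA (∏ i, Real.log (((j i : ℝ) + 1) / j i) + κ)
      (by linarith) (fun B => h3 r j (fun i => by have := (hm1 i).1; omega)
        (by rw [Finset.sum_add_distrib, Finset.sum_const, Finset.card_univ, Fintype.card_fin,
              smul_eq_mul, mul_one]; omega) κ hκ0 B) κ hκ0
    filter_upwards [Filter.eventually_ge_atTop N₁, Filter.eventually_ge_atTop N₂] with N ha hb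
    refine ⟨fun l hl hw hmt => hN₁ N ha l hl hw hmt, ?_⟩
    have := hN₂ N hb
    refine this.trans (le_of_eq ?_)
    ring
  have key2 : ∀ᶠ N : ℕ in Filter.atTop, ∀ b : Bool, ∀ r ∈ Icc 4 9, ∀ j ∈ JJ b r,
      (∀ l : ℕ → ℝ, Adm K (QL N) l → (∀ a : ℕ, 1 ≤ a → 0 ≤ wt l a) → mt (QL N) l ≤ K / Real.log N →
        ∑ m ∈ Win N with m % 30 = 7, TL N (aJ j) (bJ j) m * fN N m * wt l (m - 6) ≤
          1 / 8 * (∑ m ∈ Win N, TL N (aJ j) (bJ j) m * fN N m) * mt (QL N) l +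
            η * (N : ℝ) ^ 2 / Real.log N) ∧
      ∑ m ∈ Win N, TL N (aJ j) (bJ j) m * fN N m ≤
        (∏ i, Real.log (((j i : ℝ) + 1) / j i) + 2 * κ) * XN N := by
    rw [Filter.eventually_all]
    intro b
    rw [Filter.eventually_all_finset]
    intro r hr
    rw [Filter.eventually_all_finset]
    intro j hj
    exact key b r hr j hj
  obtain ⟨N₁, hN₁⟩ := Filter.eventually_atTop.1 key2
  obtain ⟨N₂, hN₂⟩ := h5
  refine ⟨max (max N₁ N₂) 3, ?_⟩
  intro N hN l hl hw hmt0 hmt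
  have hNa : N₁ ≤ N := le_trans (le_trans (le_max_left _ _) (le_max_left _ _)) hN
  have hNb : N₂ ≤ N := le_trans (le_trans (le_max_right _ _) (le_max_left _ _)) hN
  have hN3 : 3 ≤ N := le_trans (le_max_right _ _) hN
  have hN3' : (3 : ℝ) ≤ (N : ℝ) := by exact_mod_cast hN3
  have hlog : 0 < Real.log N := Real.log_pos (by linarith)
  obtain ⟨hX1, hX2, -⟩ := hN₂ N hNb
  have hX0 : 0 ≤ XN N := le_trans (by positivity) hX1
  have hk := hN₁ N hNa
  -- exchange of the sums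
  have hswap : ∑ m ∈ Win N with m % 30 = 7, TS N m * fN N m * wt l (m - 6) =
      ∑ b : Bool, ∑ r ∈ Icc 4 9, ∑ j ∈ JJ b r,
        om b r (∑ i, j i) * ph r (∑ i, j i) / (3 * Real.log N) *
          ∑ m ∈ Win N with m % 30 = 7, TL N (aJ j) (bJ j) m * fN N m * wt l (m - 6) := by
    simp only [TS, Finset.sum_mul]
    rw [Finset.sum_comm]
    refine Finset.sum_congr rfl fun b _ => ?_
    rw [Finset.sum_comm]
    refine Finset.sum_congr rfl fun r _ => ?_
    rw [Finset.sum_comm]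
    refine Finset.sum_congr rfl fun j _ => ?_
    rw [Finset.mul_sum]
    refine Finset.sum_congr rfl fun m _ => ?_
    ring
  rw [hswap]
  -- termwise bound
  have hterm : ∀ b : Bool, ∀ r ∈ Icc 4 9, ∀ j ∈ JJ b r,
      om b r (∑ i, j i) * ph r (∑ i, j i) / (3 * Real.log N) *
          ∑ m ∈ Win N with m % 30 = 7, TL N (aJ j) (bJ j) m * fN N m * wt l (m - 6) ≤
      1 / 8 * (XN N / (3 * Real.log N)) * mt (QL N) l *
        (om b r (∑ i, j i) * ph r (∑ i, j i) * ∏ i, Real.log (((j i : ℝ) + 1) / j i)) +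
      (1 / 8 * (XN N / (3 * Real.log N)) * mt (QL N) l * (2 * κ) +
        η * (N : ℝ) ^ 2 / (3 * Real.log N ^ 2)) * (om b r (∑ i, j i) * ph r (∑ i, j i)) := by
    intro b r hr j hj
    obtain ⟨ha, hb⟩ := hk b r hr j hj
    have hc := ha l hl hw hmt
    have hd : 1 / 8 * (∑ m ∈ Win N, TL N (aJ j) (bJ j) m * fN N m) * mt (QL N) l ≤
        1 / 8 * ((∏ i, Real.log (((j i : ℝ) + 1) / j i) + 2 * κ) * XN N) * mt (QL N) l := by
      apply mul_le_mul_of_nonneg_right _ hmt0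
      linarith
    have he : 0 ≤ om b r (∑ i, j i) * ph r (∑ i, j i) / (3 * Real.log N) :=
      div_nonneg (SWT_coef hr hj) (by positivity)
    refine (mul_le_mul_of_nonneg_left (hc.trans (add_le_add_left hd _)) he).trans (le_of_eq ?_)
    field_simp
    ring
  refine (Finset.sum_le_sum fun b _ => Finset.sum_le_sum fun r hr => Finset.sum_le_sum fun j hj =>
    hterm b r hr j hj).trans ?_
  simp only [Finset.sum_add_distrib, ← Finset.mul_sum]
  rw [← hS]
  have hM : 0 ≤ 1 / 8 * (XN N / (3 * Real.log N)) * mt (QL N) l := by positivity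
  have h4' : 1 / 8 * (XN N / (3 * Real.log N)) * mt (QL N) l *
      ∑ b : Bool, ∑ r ∈ Icc 4 9, ∑ j ∈ JJ b r,
        om b r (∑ i, j i) * ph r (∑ i, j i) * ∏ i, Real.log (((j i : ℝ) + 1) / j i) ≤
      1 / 8 * (XN N / (3 * Real.log N)) * mt (QL N) l * (435 / 1000) :=
    mul_le_mul_of_nonneg_left h4 hM
  -- the error
  have hMb : 1 / 8 * (XN N / (3 * Real.log N)) * mt (QL N) l ≤
      K * (N : ℝ) ^ 2 / (6 * Real.log N ^ 2) := by
    have ha : 1 / 8 * (XN N / (3 * Real.log N)) * mt (QL N) l ≤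
        1 / 8 * (4 * (N : ℝ) ^ 2 / (3 * Real.log N)) * (K / Real.log N) := by
      apply mul_le_mul _ hmt hmt0 (by positivity)
      apply mul_le_mul_of_nonneg_left _ (by norm_num)
      exact div_le_div_of_nonneg_right hX2 (by positivity)
    refine ha.trans (le_of_eq ?_)
    field_simp
    norm_num
  have herr : (1 / 8 * (XN N / (3 * Real.log N)) * mt (QL N) l * (2 * κ) +
        η * (N : ℝ) ^ 2 / (3 * Real.log N ^ 2)) * S ≤ ε' * (N : ℝ) ^ 2 / Real.log N ^ 2 := by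
    have ha : 1 / 8 * (XN N / (3 * Real.log N)) * mt (QL N) l * (2 * κ) ≤
        K * (N : ℝ) ^ 2 / (6 * Real.log N ^ 2) * (2 * κ) :=
      mul_le_mul_of_nonneg_right hMb (by positivity)
    have hb : (1 / 8 * (XN N / (3 * Real.log N)) * mt (QL N) l * (2 * κ) +
        η * (N : ℝ) ^ 2 / (3 * Real.log N ^ 2)) * S ≤
        (K * (N : ℝ) ^ 2 / (6 * Real.log N ^ 2) * (2 * κ) +
          η * (N : ℝ) ^ 2 / (3 * Real.log N ^ 2)) * (S + 1) := by
      apply mul_le_mul _ (by linarith) hS0 (by positivity)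
      linarith
    refine hb.trans ?_
    have hc : (K * (N : ℝ) ^ 2 / (6 * Real.log N ^ 2) * (2 * κ) +
          η * (N : ℝ) ^ 2 / (3 * Real.log N ^ 2)) * (S + 1) =
        2 / 3 * (ε' * (N : ℝ) ^ 2 / Real.log N ^ 2) := by
      rw [hκ, hη]
      field_simp
      ring
    rw [hc]
    have hd : 0 ≤ ε' * (N : ℝ) ^ 2 / Real.log N ^ 2 := by positivity
    linarith
  have hfin : 1 / 8 * (XN N / (3 * Real.log N)) * mt (QL N) l * (435 / 1000) =
      1 / 8 * (435 / 1000) * (XN N / (3 * Real.log N)) * mt (QL N) l := by ring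
  rw [← hfin]
  exact add_le_add h4' herr

end Pool.Agent.EC
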