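import Pool.Agent.helper26.EC.SpecE

/-!
# Project EC: row TLC
-/

set_option autoImplicit false

namespace Pool.Agent.EC

open Finset ArithmeticFunction
open Pool.Agent.CH (Win rgh dl eU Mo ClP ClB)

private theorem TLC_TL {r : ℕ} (N : ℕ) (a b : Fin r → ℝ) (m : ℕ) :
    TL N a b m = ∑ p ∈ TUP N a b m, vonMangoldt (m / ∏ i, p i) := rfl

/-- lower exponents of the cell `c` -/
private noncomputable def cA {r k : ℕ} (a b : Fin r → ℝ) (c : Fin r → Fin k) (i : Fin r) : ℝ :=
  a i + ((c i : ℕ) : ℝ) * ((b i - a i) / k)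

/-- upper exponents of the cell `c` -/
private noncomputable def cB {r k : ℕ} (a b : Fin r → ℝ) (c : Fin r → Fin k) (i : Fin r) : ℝ :=
  a i + (((c i : ℕ) : ℝ) + 1) * ((b i - a i) / k)

private theorem TLC_ge {r k : ℕ} (a b : Fin r → ℝ) (hab : ∀ i, a i < b i)
    (c : Fin r → Fin k) (i : Fin r) : a i ≤ cA a b c i := by
  have hk : 0 < k := lt_of_le_of_lt (Nat.zero_le _) (c i).2
  have hk' : (0 : ℝ) < k := by exact_mod_cast hk
  have h := hab i
  have : 0 ≤ ((c i : ℕ) : ℝ) * ((b i - a i) / k) :=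
    mul_nonneg (Nat.cast_nonneg _) (div_nonneg (by linarith) hk'.le)
  unfold cA
  linarith

private theorem TLC_le {r k : ℕ} (a b : Fin r → ℝ) (hab : ∀ i, a i < b i)
    (c : Fin r → Fin k) (i : Fin r) : cB a b c i ≤ b i := by
  have hk : 0 < k := lt_of_le_of_lt (Nat.zero_le _) (c i).2
  have hk' : (0 : ℝ) < k := by exact_mod_cast hk
  have h := hab i
  have h1 : (((c i : ℕ) : ℝ) + 1) ≤ k := by exact_mod_cast (c i).2
  have h2 : (((c i : ℕ) : ℝ) + 1) * ((b i - a i) / k) ≤ k * ((b i - a i) / k) :=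
    mul_le_mul_of_nonneg_right h1 (div_nonneg (by linarith) hk'.le)
  have h3 : (k : ℝ) * ((b i - a i) / k) = b i - a i := by field_simp
  unfold cB
  linarith

private theorem TLC_width {r k : ℕ} (a b : Fin r → ℝ)
    (c : Fin r → Fin k) (i : Fin r) : cB a b c i = cA a b c i + (b i - a i) / k := by
  unfold cA cB
  ring

private theorem TLC_AdT {r k : ℕ} (a b : Fin r → ℝ) (hA : AdT a b) (hab : ∀ i, a i < b i)
    (c : Fin r → Fin k) : AdT (cA a b c) (cB a b c) := by
  obtain ⟨hr, h1, h2, h3⟩ := hA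
  refine ⟨hr, fun i => ⟨lt_of_lt_of_le (h1 i).1 (TLC_ge a b hab c i),
    (TLC_le a b hab c i).trans (h1 i).2⟩, ?_, ?_⟩
  · exact lt_of_lt_of_le h2 (Finset.sum_le_sum fun i _ => TLC_ge a b hab c i)
  · exact lt_of_le_of_lt (Finset.sum_le_sum fun i _ => TLC_le a b hab c i) h3

/-- a large exponent in a tuple which is not good -/
private theorem TLC_large {r : ℕ} (δ : ℝ) (x : Fin r → ℝ)
    (hng : ∀ S : Finset (Fin r), ∑ i ∈ S, x i < 1 + δ ∨ 2 - 2 * δ < ∑ i ∈ S, x i) (hδ : 0 < δ)
    (S : Finset (Fin r)) : 1 + δ ≤ ∑ i ∈ S, x i → ∃ i, 1 - 3 * δ < x i := by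
  classical
  induction S using Finset.induction_on with
  | empty =>
    intro h
    rw [Finset.sum_empty] at h
    linarith
  | insert i S hi ih =>
    intro h
    by_cases h1 : 1 + δ ≤ ∑ i ∈ S, x i
    · exact ih h1
    · push Not at h1
      refine ⟨i, ?_⟩
      rcases hng (insert i S) with h2 | h2
      · linarith
      · rw [Finset.sum_insert hi] at h2
        linarith

theorem TLC : TLC_stmt := by
  classical
  intro r a b hA
  obtain ⟨hr, hab0, hsa, hsb⟩ := hA
  refine ⟨min (1 / 10) ((∑ i, a i - 1) / 2), ?_, ?_⟩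
  · rw [lt_min_iff]
    exact ⟨by norm_num, by linarith⟩
  intro δ hδ hδ1
  have hδ2 : δ ≤ 1 / 10 := hδ1.trans (min_le_left _ _)
  have hδ3 : δ ≤ (∑ i, a i - 1) / 2 := hδ1.trans (min_le_right _ _)
  have hTLe : ∀ N m : ℕ, 0 ≤ TLe N a b δ m := fun N m =>
    Finset.sum_nonneg fun p _ => vonMangoldt_nonneg
  by_cases hab : ∀ i, a i < b i
  · -- the cells
    have hne : Nonempty (Fin r) := ⟨⟨0, by omega⟩⟩
    obtain ⟨i1, hi1⟩ := Finite.exists_max fun i => (b i - a i)
    obtain ⟨k, hk⟩ := exists_nat_gt ((b i1 - a i1) * (r + 1) / δ)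
    have hr1 : (0 : ℝ) < (r : ℝ) + 1 := by positivity
    have hkpos : (0 : ℝ) < k := by
      refine lt_of_le_of_lt ?_ hk
      have := hab i1
      exact div_nonneg (mul_nonneg (by linarith) hr1.le) hδ.le
    have hw : ∀ i, (b i - a i) / k ≤ δ / (r + 1) := by
      intro i
      rw [div_lt_iff₀ hδ] at hk
      rw [div_le_div_iff₀ hkpos hr1]
      have h1 := hi1 i
      have h2 : (b i - a i) * (r + 1) ≤ (b i1 - a i1) * (r + 1) :=
        mul_le_mul_of_nonneg_right h1 hr1.le
      linarith
    have hwS : ∀ (c : Fin r → Fin k) (S : Finset (Fin r)), ∑ i ∈ S, cB a b c i ≤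
        ∑ i ∈ S, cA a b c i + δ := by
      intro c S
      have h1 : ∑ i ∈ S, cB a b c i ≤ ∑ i ∈ S, (cA a b c i + δ / (r + 1)) := by
        apply Finset.sum_le_sum
        intro i _
        rw [TLC_width]
        have := hw i
        linarith
      rw [Finset.sum_add_distrib, Finset.sum_const, nsmul_eq_mul] at h1
      have h2 : (#S : ℝ) ≤ r + 1 := by
        have : #S ≤ r := by
          have := Finset.card_le_univ S
          rwa [Fintype.card_fin] at this
        have : (#S : ℝ) ≤ r := by exact_mod_cast this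
        linarith
      have h3 : (#S : ℝ) * (δ / (r + 1)) ≤ (r + 1) * (δ / (r + 1)) :=
        mul_le_mul_of_nonneg_right h2 (by positivity)
      have h4 : ((r : ℝ) + 1) * (δ / (r + 1)) = δ := by field_simp
      linarith
    set G : Finset (Fin r → Fin k) := Finset.univ.filter fun c => GdT δ (cA a b c) (cB a b c) with hG
    have h9 : ∀ c' ∈ G, GdT δ (cA a b c') (cB a b c') := by
      intro c' hc'
      rw [hG, Finset.mem_filter] at hc'
      exact hc'.2
    let e : Fin (#G) ≃ G := (G.equivFin).symm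
    refine ⟨#G, fun c => cA a b (e c).1, fun c => cB a b (e c).1, ?_, ?_⟩
    · intro c
      exact ⟨TLC_AdT a b ⟨hr, hab0, hsa, hsb⟩ hab _, h9 _ (e c).2⟩
    intro N m hN
    have hN1 : (1 : ℝ) < N := by exact_mod_cast (by omega : 1 < N)
    have hN0 : (0 : ℝ) < N := by linarith
    have hlog : 0 < Real.log N := Real.log_pos hN1
    have hsum : ∑ c : Fin (#G), TL N (cA a b (e c).1) (cB a b (e c).1) m =
        ∑ c ∈ G, TL N (cA a b c) (cB a b c) m := by
      rw [← Finset.sum_coe_sort G]
      exact e.sum_comp fun c : G => TL N (cA a b c.1) (cB a b c.1) m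
    rw [hsum]
    -- the cells as filters of `TUP`
    have hfil : ∀ c : Fin r → Fin k, TUP N (cA a b c) (cB a b c) m =
        (TUP N a b m).filter fun p => ∀ i, (N : ℝ) ^ cA a b c i ≤ (p i : ℝ) ∧
          (p i : ℝ) < (N : ℝ) ^ cB a b c i := by
      intro c
      ext p
      unfold TUP
      simp only [Finset.mem_filter]
      constructor
      · rintro ⟨h1, h2, h3⟩
        refine ⟨⟨h1, fun i => ⟨?_, ?_⟩, h3⟩, h2⟩
        · exact (Real.rpow_le_rpow_of_exponent_le hN1.le (TLC_ge a b hab c i)).trans (h2 i).1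
        · exact lt_of_lt_of_le (h2 i).2
            (Real.rpow_le_rpow_of_exponent_le hN1.le (TLC_le a b hab c i))
      · rintro ⟨⟨h1, _, h3⟩, h2⟩
        exact ⟨h1, h2, h3⟩
    have hTLc : ∀ c : Fin r → Fin k, TL N (cA a b c) (cB a b c) m =
        ∑ p ∈ TUP N a b m, if (∀ i, (N : ℝ) ^ cA a b c i ≤ (p i : ℝ) ∧
          (p i : ℝ) < (N : ℝ) ^ cB a b c i) then vonMangoldt (m / ∏ i, p i) else 0 := by
      intro c
      rw [TLC_TL, hfil c, Finset.sum_filter]
    have hGsum : ∑ c ∈ G, TL N (cA a b c) (cB a b c) m =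
        ∑ p ∈ TUP N a b m, ∑ c ∈ G, if (∀ i, (N : ℝ) ^ cA a b c i ≤ (p i : ℝ) ∧
          (p i : ℝ) < (N : ℝ) ^ cB a b c i) then vonMangoldt (m / ∏ i, p i) else 0 := by
      rw [Finset.sum_comm]
      exact Finset.sum_congr rfl fun c _ => hTLc c
    rw [hGsum]
    constructor
    · -- upper bound
      unfold TLe
      rw [TLC_TL, Finset.sum_filter, ← Finset.sum_add_distrib]
      apply Finset.sum_le_sum
      intro p hp
      have hp' := hp
      unfold TUP at hp'
      rw [Finset.mem_filter, Fintype.mem_piFinset] at hp'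
      obtain ⟨hp1, hp2, -⟩ := hp'
      have hΛ : 0 ≤ vonMangoldt (m / ∏ i, p i) := vonMangoldt_nonneg
      -- the cell of `p`
      have hcell : ∀ i, ∃ c : Fin k, (N : ℝ) ^ (a i + ((c : ℕ) : ℝ) * ((b i - a i) / k)) ≤ (p i : ℝ) ∧
          (p i : ℝ) < (N : ℝ) ^ (a i + (((c : ℕ) : ℝ) + 1) * ((b i - a i) / k)) := by
        intro i
        have hpi : (0 : ℝ) < p i := by
          exact_mod_cast (Nat.prime_of_mem_primeFactors (hp1 i)).pos
        have hwi : 0 < (b i - a i) / k := div_pos (by have := hab i; linarith) hkpos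
        set x := Real.log (p i) / Real.log N with hx
        have hpx : (p i : ℝ) = (N : ℝ) ^ x := by
          rw [Real.rpow_def_of_pos hN0, hx, mul_div_cancel₀ _ hlog.ne', Real.exp_log hpi]
        have hax : a i ≤ x := by
          have := (hp2 i).1
          rw [hpx, Real.rpow_le_rpow_left_iff hN1] at this
          exact this
        have hxb : x < b i := by
          have := (hp2 i).2
          rw [hpx, Real.rpow_lt_rpow_left_iff hN1] at this
          exact this
        have hz0 : 0 ≤ (x - a i) / ((b i - a i) / k) := div_nonneg (by linarith) hwi.le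
        have hzk : (x - a i) / ((b i - a i) / k) < k := by
          rw [div_lt_iff₀ hwi]
          have : (k : ℝ) * ((b i - a i) / k) = b i - a i := by field_simp
          linarith
        have hfl : ⌊(x - a i) / ((b i - a i) / k)⌋₊ < k := by
          rw [Nat.floor_lt hz0]
          exact hzk
        refine ⟨⟨⌊(x - a i) / ((b i - a i) / k)⌋₊, hfl⟩, ?_, ?_⟩
        · rw [hpx, Real.rpow_le_rpow_left_iff hN1]
          have h1 := Nat.floor_le hz0
          rw [le_div_iff₀ hwi] at h1
          simp only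
          linarith
        · rw [hpx, Real.rpow_lt_rpow_left_iff hN1]
          have h1 := Nat.lt_floor_add_one ((x - a i) / ((b i - a i) / k))
          rw [div_lt_iff₀ hwi] at h1
          simp only
          linarith
      choose c hc using hcell
      have hc' : ∀ i, (N : ℝ) ^ cA a b c i ≤ (p i : ℝ) ∧ (p i : ℝ) < (N : ℝ) ^ cB a b c i := hc
      have hnn : ∀ c ∈ G, (0 : ℝ) ≤ if (∀ i, (N : ℝ) ^ cA a b c i ≤ (p i : ℝ) ∧
          (p i : ℝ) < (N : ℝ) ^ cB a b c i) then vonMangoldt (m / ∏ i, p i) else 0 := by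
        intro c _
        split_ifs
        · exact hΛ
        · exact le_rfl
      by_cases hcG : c ∈ G
      · have h1 := Finset.single_le_sum hnn hcG
        rw [if_pos hc'] at h1
        have h2 : (0 : ℝ) ≤ if (∃ i, (N : ℝ) ^ (1 - 3 * δ) ≤ (p i : ℝ) ∧
            (p i : ℝ) < (N : ℝ) ^ (1 + 2 * δ)) then vonMangoldt (m / ∏ i, p i) else 0 := by
          split_ifs
          · exact hΛ
          · exact le_rfl
        linarith
      · -- an edge tuple
        have hng : ∀ S : Finset (Fin r), ∑ i ∈ S, cA a b c i < 1 + δ ∨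
            2 - 2 * δ < ∑ i ∈ S, cA a b c i := by
          intro S
          by_contra hcon
          push Not at hcon
          apply hcG
          rw [hG, Finset.mem_filter]
          refine ⟨Finset.mem_univ _, S, hcon.1, ?_⟩
          have := hwS c S
          linarith [hcon.2]
        obtain ⟨i, hi⟩ := TLC_large δ (cA a b c) hng hδ Finset.univ (by
          have : ∑ i, a i ≤ ∑ i, cA a b c i := Finset.sum_le_sum fun i _ => TLC_ge a b hab c i
          linarith)
        have hsi := hng {i}
        rw [Finset.sum_singleton] at hsi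
        have hwi := hwS c {i}
        rw [Finset.sum_singleton, Finset.sum_singleton] at hwi
        have hble : cB a b c i ≤ 3 / 2 := (TLC_le a b hab c i).trans (hab0 i).2
        have hAB : cA a b c i ≤ cB a b c i := by
          rw [TLC_width]
          have : 0 < (b i - a i) / k := div_pos (by have := hab i; linarith) hkpos
          linarith
        have hlt : cA a b c i < 1 + δ := by
          rcases hsi with h | h
          · exact h
          · linarith
        have hex : ∃ i, (N : ℝ) ^ (1 - 3 * δ) ≤ (p i : ℝ) ∧ (p i : ℝ) < (N : ℝ) ^ (1 + 2 * δ) := by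
          refine ⟨i, ?_, ?_⟩
          · exact (Real.rpow_le_rpow_of_exponent_le hN1.le hi.le).trans (hc' i).1
          · exact lt_of_lt_of_le (hc' i).2 (Real.rpow_le_rpow_of_exponent_le hN1.le (by linarith))
        rw [if_pos hex]
        have h3 := Finset.sum_nonneg hnn
        linarith
    · -- lower bound
      rw [TLC_TL]
      apply Finset.sum_le_sum
      intro p _
      have hΛ : 0 ≤ vonMangoldt (m / ∏ i, p i) := vonMangoldt_nonneg
      rw [← Finset.sum_filter]
      have hcard : #(G.filter fun c => ∀ i, (N : ℝ) ^ cA a b c i ≤ (p i : ℝ) ∧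
          (p i : ℝ) < (N : ℝ) ^ cB a b c i) ≤ 1 := by
        rw [Finset.card_le_one]
        intro c hc c' hc'
        rw [Finset.mem_filter] at hc hc'
        have key : ∀ (c c' : Fin r → Fin k), (∀ i, (N : ℝ) ^ cA a b c i ≤ (p i : ℝ) ∧
            (p i : ℝ) < (N : ℝ) ^ cB a b c i) → (∀ i, (N : ℝ) ^ cA a b c' i ≤ (p i : ℝ) ∧
            (p i : ℝ) < (N : ℝ) ^ cB a b c' i) → ∀ i, (c i : ℕ) ≤ (c' i : ℕ) := by
          intro c c' h1 h2 i
          have h3 := lt_of_le_of_lt (h1 i).1 (h2 i).2
          rw [Real.rpow_lt_rpow_left_iff hN1] at h3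
          unfold cA cB at h3
          have hwi : 0 < (b i - a i) / k := div_pos (by have := hab i; linarith) hkpos
          have h4 : ((c i : ℕ) : ℝ) * ((b i - a i) / k) < (((c' i : ℕ) : ℝ) + 1) * ((b i - a i) / k) := by
            linarith
          have h5 := lt_of_mul_lt_mul_right h4 hwi.le
          have h6 : (c i : ℕ) < (c' i : ℕ) + 1 := by exact_mod_cast h5
          omega
        funext i
        apply Fin.ext
        exact le_antisymm (key c c' hc.2 hc'.2 i) (key c' c hc'.2 hc.2 i)
      rw [Finset.sum_const, nsmul_eq_mul]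
      have h7 : (#(G.filter fun c => ∀ i, (N : ℝ) ^ cA a b c i ≤ (p i : ℝ) ∧
          (p i : ℝ) < (N : ℝ) ^ cB a b c i) : ℝ) ≤ 1 := by exact_mod_cast hcard
      have h8 := mul_le_mul_of_nonneg_right h7 hΛ
      rw [one_mul] at h8
      exact h8
  · -- no tuples
    push Not at hab
    obtain ⟨i, hi⟩ := hab
    refine ⟨0, fun c => c.elim0, fun c => c.elim0, fun c => c.elim0, ?_⟩
    intro N m hN
    have hN1 : (1 : ℝ) < N := by exact_mod_cast (by omega : 1 < N)
    have hemp : TUP N a b m = ∅ := by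
      rw [Finset.eq_empty_iff_forall_notMem]
      intro p hp
      unfold TUP at hp
      rw [Finset.mem_filter] at hp
      have h1 := lt_of_le_of_lt (hp.2.1 i).1 (hp.2.1 i).2
      rw [Real.rpow_lt_rpow_left_iff hN1] at h1
      linarith
    rw [TLC_TL, hemp]
    simp only [Finset.sum_empty, Finset.univ_eq_empty, zero_add]
    exact ⟨hTLe N m, le_rfl⟩

end Pool.Agent.EC
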