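import Pool.Agent.helper26.EC.SpecE

/-!
# Project EC: row TLM
-/

set_option autoImplicit false

namespace Pool.Agent.EC

open Finset ArithmeticFunction
open Pool.Agent.CH (Win rgh dl eU Mo ClP ClB)

private theorem TLM_win {N m : ℕ} (hN : 8 ≤ N) (hm : m ∈ Win N) : N ^ 3 < m ∧ m ≤ N ^ 4 := by
  unfold Win at hm
  rw [Finset.mem_Ioc] at hm
  refine ⟨hm.1, hm.2.trans ?_⟩
  have h1 : N + 1 ≤ 2 * N := by omega
  calc (N + 1) ^ 3 ≤ (2 * N) ^ 3 := Nat.pow_le_pow_left h1 3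
    _ = 8 * N ^ 3 := by ring
    _ ≤ N * N ^ 3 := Nat.mul_le_mul_right _ hN
    _ = N ^ 4 := by ring

private theorem TLM_core (r : ℕ) (a b : Fin r → ℝ) (κ : ℝ) (hκ : 0 < κ) (hκa : ∀ i, κ < a i)
    (hκb : κ < 3 - ∑ i, b i) (N : ℕ) (hN : 8 ≤ N) (m : ℕ) (hm : m ∈ Win N) (p : Fin r → ℕ)
    (hp : p ∈ TUP N a b m) (hpr : (m / ∏ i, p i).Prime) : rgh ((N : ℝ) ^ κ) m := by
  obtain ⟨hm1, hm2⟩ := TLM_win hN hm
  have hN1 : (1 : ℝ) < N := by exact_mod_cast (by omega : 1 < N)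
  have hN0 : (0 : ℝ) < N := by linarith
  unfold TUP at hp
  rw [Finset.mem_filter, Fintype.mem_piFinset] at hp
  obtain ⟨hp1, hp2, hp3⟩ := hp
  refine ⟨by omega, ?_⟩
  intro q hq hqm
  obtain ⟨n, hn⟩ := hp3
  have hprodpos : 0 < ∏ i, p i := Finset.prod_pos fun i _ => (Nat.prime_of_mem_primeFactors (hp1 i)).pos
  have hdiv : m / ∏ i, p i = n := by rw [hn]; exact Nat.mul_div_cancel_left n hprodpos
  rw [hdiv] at hpr
  rw [hn] at hqm
  rcases (Nat.Prime.dvd_mul hq).1 hqm with h | h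
  · obtain ⟨i, -, hi⟩ := (hq.prime.dvd_finsetProd_iff _).1 h
    have hqi : q = p i := (Nat.prime_dvd_prime_iff_eq hq (Nat.prime_of_mem_primeFactors (hp1 i))).1 hi
    rw [hqi]
    exact lt_of_lt_of_le (Real.rpow_lt_rpow_of_exponent_lt hN1 (hκa i)) (hp2 i).1
  · have hqn : q = n := (Nat.prime_dvd_prime_iff_eq hq hpr).1 h
    rw [hqn]
    have h1 : (∏ i, (p i : ℝ)) ≤ (N : ℝ) ^ (∑ i, b i) := by
      rw [Real.rpow_sum_of_pos hN0]
      exact Finset.prod_le_prod (fun i _ => Nat.cast_nonneg _) fun i _ => (hp2 i).2.le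
    have h2 : ((m : ℕ) : ℝ) = (∏ i, (p i : ℝ)) * n := by
      rw [hn]; push_cast; ring
    have h3 : (N : ℝ) ^ (3 : ℝ) < m := by
      have : ((N ^ 3 : ℕ) : ℝ) < (m : ℝ) := by exact_mod_cast hm1
      push_cast at this
      rw [show (3 : ℝ) = ((3 : ℕ) : ℝ) by norm_num, Real.rpow_natCast]
      exact this
    have h4 : (N : ℝ) ^ (3 : ℝ) = (N : ℝ) ^ (∑ i, b i) * (N : ℝ) ^ (3 - ∑ i, b i) := by
      rw [← Real.rpow_add hN0]
      congr 1
      ring
    have h5 : 0 < (N : ℝ) ^ (∑ i, b i) := Real.rpow_pos_of_pos hN0 _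
    have h6 : (N : ℝ) ^ (∑ i, b i) * (N : ℝ) ^ (3 - ∑ i, b i) < (N : ℝ) ^ (∑ i, b i) * n := by
      rw [← h4]
      refine h3.trans_le ?_
      rw [h2]
      exact mul_le_mul_of_nonneg_right h1 (Nat.cast_nonneg _)
    have h7 : (N : ℝ) ^ (3 - ∑ i, b i) < n := lt_of_mul_lt_mul_left h6 h5.le
    exact (Real.rpow_lt_rpow_of_exponent_lt hN1 hκb).trans h7

private theorem TLM_card (κ : ℝ) (hκ : 0 < κ) (N m : ℕ) (hN : 8 ≤ N) (hm0 : m ≠ 0) (hm : m ≤ N ^ 4)
    (h : rgh ((N : ℝ) ^ κ) m) : (#m.primeFactors : ℝ) ≤ 4 / κ := by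
  have hN1 : (1 : ℝ) < N := by exact_mod_cast (by omega : 1 < N)
  have hN0 : (0 : ℝ) < N := by linarith
  have h1 : ((N : ℝ) ^ κ) ^ #m.primeFactors ≤ ∏ q ∈ m.primeFactors, (q : ℝ) := by
    rw [← Finset.prod_const]
    exact Finset.prod_le_prod (fun _ _ => (Real.rpow_pos_of_pos hN0 _).le) fun q hq =>
      (h.2 q (Nat.prime_of_mem_primeFactors hq) (Nat.dvd_of_mem_primeFactors hq)).le
  have h2 : ∏ q ∈ m.primeFactors, q ≤ m :=
    Nat.le_of_dvd (Nat.pos_of_ne_zero hm0) (Nat.prod_primeFactors_dvd m)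
  have h3 : (∏ q ∈ m.primeFactors, (q : ℝ)) ≤ (N : ℝ) ^ (4 : ℝ) := by
    have : ((∏ q ∈ m.primeFactors, q : ℕ) : ℝ) ≤ ((N ^ 4 : ℕ) : ℝ) := by exact_mod_cast h2.trans hm
    push_cast at this
    rw [show (4 : ℝ) = ((4 : ℕ) : ℝ) by norm_num, Real.rpow_natCast]
    exact this
  have h4 : (N : ℝ) ^ (κ * #m.primeFactors) ≤ (N : ℝ) ^ (4 : ℝ) := by
    rw [Real.rpow_mul hN0.le, Real.rpow_natCast]
    exact h1.trans h3
  rw [Real.rpow_le_rpow_left_iff hN1] at h4
  rw [le_div_iff₀ hκ]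
  linarith

theorem TLM : TLM_stmt := by
  classical
  intro r a b hA
  obtain ⟨hr, hab, -, hsum⟩ := hA
  haveI : Nonempty (Fin r) := ⟨⟨0, by omega⟩⟩
  obtain ⟨i0, hi0⟩ := Finite.exists_min a
  have ha0 : 0 < a i0 := (hab i0).1
  set κ : ℝ := min (min (a i0 / 2) ((3 - ∑ i, b i) / 2)) (1 / 20) with hκdef
  have hκ : 0 < κ := by
    rw [hκdef, lt_min_iff, lt_min_iff]
    refine ⟨⟨by linarith, by linarith⟩, by norm_num⟩
  have hκ1 : κ ≤ a i0 / 2 := (min_le_left _ _).trans (min_le_left _ _)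
  have hκ2 : κ ≤ (3 - ∑ i, b i) / 2 := (min_le_left _ _).trans (min_le_right _ _)
  have hκ3 : κ ≤ 1 / 20 := min_le_right _ _
  have hκa : ∀ i, κ < a i := fun i => by have := hi0 i; linarith
  have hκb : κ < 3 - ∑ i, b i := by linarith
  clear_value κ
  refine ⟨κ, 4 * (4 / κ) ^ r, hκ, hκ3, by positivity, 8, ?_⟩
  intro N hN δ m hm
  obtain ⟨hm1, hm2⟩ := TLM_win hN hm
  have hm0 : m ≠ 0 := by omega
  have hN1 : (1 : ℝ) < N := by exact_mod_cast (by omega : 1 < N)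
  have hN0 : (0 : ℝ) < N := by linarith
  have hlog : 0 < Real.log N := Real.log_pos hN1
  unfold TLe
  set T := (TUP N a b m).filter (fun p => ∃ i, (N : ℝ) ^ (1 - 3 * δ) ≤ (p i : ℝ) ∧
    (p i : ℝ) < (N : ℝ) ^ (1 + 2 * δ)) with hT
  rw [← Finset.sum_filter_add_sum_filter_not T (fun p => (m / ∏ i, p i).Prime)]
  apply add_le_add
  · by_cases hemp : T.filter (fun p => (m / ∏ i, p i).Prime) = ∅
    · rw [hemp, Finset.sum_empty]
      positivity
    · obtain ⟨p, hp⟩ := Finset.nonempty_iff_ne_empty.2 hemp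
      rw [Finset.mem_filter, hT, Finset.mem_filter] at hp
      obtain ⟨⟨hp1, i, hi⟩, hp2⟩ := hp
      have hrgh := TLM_core r a b κ hκ hκa hκb N hN m hm p hp1 hp2
      have hpi : p i ∈ m.primeFactors := by
        unfold TUP at hp1
        rw [Finset.mem_filter, Fintype.mem_piFinset] at hp1
        exact hp1.1 i
      have hcard1 : (1 : ℝ) ≤ (#(m.primeFactors.filter fun q : ℕ => ((N : ℝ) ^ (1 - 3 * δ) ≤ (q : ℝ) ∧
          (q : ℝ) < (N : ℝ) ^ (1 + 2 * δ)) ∧ rgh ((N : ℝ) ^ κ) m) : ℝ) := by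
        have : 0 < #(m.primeFactors.filter fun q : ℕ => ((N : ℝ) ^ (1 - 3 * δ) ≤ (q : ℝ) ∧
          (q : ℝ) < (N : ℝ) ^ (1 + 2 * δ)) ∧ rgh ((N : ℝ) ^ κ) m) := by
          apply Finset.card_pos.2
          exact ⟨p i, Finset.mem_filter.2 ⟨hpi, hi, hrgh⟩⟩
        exact_mod_cast this
      have hpf := TLM_card κ hκ N m hN hm0 hm2 hrgh
      have hcardT : (#(T.filter (fun p => (m / ∏ i, p i).Prime)) : ℝ) ≤ (4 / κ) ^ r := by
        have h1 : #(T.filter (fun p => (m / ∏ i, p i).Prime)) ≤ #m.primeFactors ^ r := by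
          have h2 : T.filter (fun p => (m / ∏ i, p i).Prime) ⊆
              Fintype.piFinset fun _ : Fin r => m.primeFactors := by
            refine (Finset.filter_subset _ _).trans ((Finset.filter_subset _ _).trans ?_)
            unfold TUP
            exact Finset.filter_subset _ _
          refine (Finset.card_le_card h2).trans (le_of_eq ?_)
          rw [Fintype.card_piFinset]
          simp
        have h3 : (#(T.filter (fun p => (m / ∏ i, p i).Prime)) : ℝ) ≤ (#m.primeFactors : ℝ) ^ r := by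
          exact_mod_cast h1
        exact h3.trans (pow_le_pow_left₀ (Nat.cast_nonneg _) hpf r)
      have hterm : ∀ p ∈ T.filter (fun p => (m / ∏ i, p i).Prime),
          vonMangoldt (m / ∏ i, p i) ≤ 4 * Real.log N := by
        intro p' hp'
        refine vonMangoldt_le_log.trans ?_
        have h4 : 0 < m / ∏ i, p' i := (Finset.mem_filter.1 hp').2.pos
        have h5 : ((m / ∏ i, p' i : ℕ) : ℝ) ≤ (N : ℝ) ^ 4 := by
          have : m / ∏ i, p' i ≤ N ^ 4 := (Nat.div_le_self _ _).trans hm2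
          exact_mod_cast this
        have h6 : Real.log ((m / ∏ i, p' i : ℕ) : ℝ) ≤ Real.log ((N : ℝ) ^ 4) :=
          Real.log_le_log (by exact_mod_cast h4) h5
        rw [Real.log_pow] at h6
        exact_mod_cast h6
      have h7 : ∑ p ∈ T.filter (fun p => (m / ∏ i, p i).Prime), vonMangoldt (m / ∏ i, p i) ≤
          #(T.filter (fun p => (m / ∏ i, p i).Prime)) • (4 * Real.log N) :=
        Finset.sum_le_card_nsmul _ _ _ hterm
      rw [nsmul_eq_mul] at h7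
      have h8 : (#(T.filter (fun p => (m / ∏ i, p i).Prime)) : ℝ) * (4 * Real.log N) ≤
          (4 / κ) ^ r * (4 * Real.log N) := mul_le_mul_of_nonneg_right hcardT (by positivity)
      have h9 : (4 / κ) ^ r * (4 * Real.log N) = 4 * (4 / κ) ^ r * Real.log N * 1 := by ring
      rw [h9] at h8
      exact (h7.trans h8).trans (mul_le_mul_of_nonneg_left hcard1 (by positivity))
  · apply Finset.sum_le_sum_of_subset_of_nonneg
    · intro p hp
      rw [Finset.mem_filter] at hp ⊢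
      exact ⟨(Finset.mem_filter.1 hp.1).1, hp.2⟩
    · intro p _ _
      exact vonMangoldt_nonneg

end Pool.Agent.EC
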